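import Mathlib
import Pool.Agent.H.MP_c8cc4c_co.Iface

/-! # MP_c8cc4c_co, part O (one step), definitions -/

open scoped Classical
open Finset

noncomputable section

namespace Pool.Agent.H.MP_c8cc4c_co

/-- the situation of one step after static cutting -/
structure OD (M : PC) (Q : Set M.V) (l1 : ℕ) (Mo : Mouths M) : Prop where
  sph : M.IsSphere
  quad : M.Quad
  simple : M.Simple
  connQ : ConnOn M.graph Q
  connO : ConnOn M.graph Qᶜ
  cut : CutOut M Q l1 Mo

/-- real vertices and interior vertices at distance at most `h` from the boundary of their mouth -/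
def oSh {M : PC} (Mo : Mouths M) (h : ℕ) : Set M.V :=
  {x | x ∈ Mo.Real ∨ ∃ i t, x ∈ M.intr (Mo.c i) ∧ Near M.graph Set.univ h x (Mo.gv i t)}

/-- the vertices which are ordered in this step -/
def oV0 {M : PC} (Mo : Mouths M) (Q : Set M.V) (h : ℕ) : Set M.V := Q ∩ oSh Mo h

/-- the real vertices at a vertex of the glued complex: itself, or the boundary vertices of the mouth -/
def oAt {M : PC} (Mo : Mouths M) (v : (glue M Mo).V) : Set M.V :=
  {x | v.1 = Sum.inl x ∨ ∃ i a b t, v.1 = Sum.inr (i, a, b) ∧ x = Mo.gv i t}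

/-- the real zone of the set `Z` of vertices of the glued complex -/
def oZone {M : PC} (Mo : Mouths M) (l1 : ℕ) (Φ : M.V → (glue M Mo).V) (Z : Set (glue M Mo).V) :
    Set M.V :=
  {z | (∃ w ∈ Z, Near (glue M Mo).graph Set.univ 100 (Φ z) w) ∧
    (z ∈ Mo.Real ∨ ∃ i t, z ∈ M.intr (Mo.c i) ∧
      Near M.graph Set.univ (l1 / 8 + 1) z (Mo.gv i t))}

/-- the properties of the map `Φ` of part R -/
structure OPhi (M : PC) (l1 : ℕ) (Mo : Mouths M) (Φ : M.V → (glue M Mo).V) : Prop where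
  real : ∀ x, x ∈ Mo.Real → (Φ x).1 = Sum.inl x
  grid : ∀ i x, x ∈ M.intr (Mo.c i) → ∃ u v, (Φ x).1 = Mo.gp i u v
  adj : ∀ x y, M.graph.Adj x y → Near (glue M Mo).graph Set.univ 2 (Φ x) (Φ y)
  walk : ∀ (Z : Set (glue M Mo).V) (x y : M.V) (n : ℕ), x ∈ Mo.Real → y ∈ Mo.Real →
    Near (glue M Mo).graph Z n (Φ x) (Φ y) → ∃ m, Near M.graph (oZone Mo l1 Φ Z) m x y

/-- the sets of cells `S` which are built: `O0` is the initial set (the cells outside `Q` or nothing) -/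
structure OGood (M : PC) (Q : Set M.V) (O0 S : Set M.Cell) : Prop where
  sub : O0 ⊆ S
  conn : ConnOn M.sd S
  down : ∀ c d, M.below c d → d ∈ S → c ∈ S
  face : ∀ f, M.cf f ∈ S → ∀ x, M.At f x → x ∉ Q
  acyc : ∀ z : M.sdPC.E → ZMod 2, M.sdPC.Ev z →
    (∀ e x, z e ≠ 0 → M.sdPC.inc e x → x ∈ S) → ∀ e x, z e ≠ 0 → M.sdPC.inc e x → x ∈ O0

/-- the cells all of whose vertices are outside `Q` -/
def oOut (M : PC) (Q : Set M.V) : Set M.Cell :=
  {c | ∀ x, (M.cv x = c ∨ M.below (M.cv x) c) → x ∉ Q}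

/-- number of siblings of `i` up to `i` -/
def oSib (par : ℕ → Option ℕ) (i : ℕ) : ℕ := ((range (i + 1)).filter fun j => par j = par i).card

/-- the zone of `i` in the glued complex: body, door and parent body -/
def oZ {N : PC} {O : Set N.V} {r1 smin s3 Ld rho1 rhof : ℕ}
    (T : TEOut N O r1 smin s3 Ld rho1 rhof) (i : ℕ) : Set N.V :=
  {v | v ∈ T.X i ∨ v ∈ T.Dr i ∨ ∃ j, T.par i = some j ∧ v ∈ T.X j}

/-- the radius (in `M`) of the real zone of a connected set with at most `s` vertices -/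
def oK (l1 s : ℕ) : ℕ := (l1 / 8 + 1) + (2 * (l1 / 8 + 1) + (100 + s) + 1) * (l1 + 1)

/-- distance in `M` from distance in the glued complex, for vertices at distance at most `j` from real
vertices -/
def oKO (l1 j k : ℕ) : ℕ := j + (2 * j + k + 1) * (l1 + 1)

/-- length of the walks between the points `w i` -/
def oLA (D l1 s3 Ld : ℕ) : ℕ := (D + 1) ^ oK l1 (2 * s3 + Ld)

/-- the length bound along whiskers -/
def oL (D l1 s3 Ld : ℕ) : ℕ := 2 ^ (oLA D l1 s3 Ld + 1)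

/-- the result of the construction of the tree -/
structure OTree {M : PC} {Q : Set M.V} {Mo : Mouths M} {r1 smin s3 Ld rho1 rhof : ℕ}
    (l1 D : ℕ) (Φ : M.V → (glue M Mo).V)
    (T : TEOut (glue M Mo) (gO Mo Q) r1 smin s3 Ld rho1 rhof) (w : ℕ → M.V)
    (O0 S : Set M.Cell) : Prop where
  base : O0 = ∅ ∨ O0 = oOut M Q
  good : OGood M Q O0 S
  wW : ∀ i < T.n, w i ∈ Q ∩ Mo.Real
  wX : ∀ i < T.n, Φ (w i) ∈ T.X i
  wS : ∀ i < T.n, M.cv (w i) ∈ S
  zone : ∀ v, M.cv v ∈ S → v ∉ Q ∨ ∃ i < T.n, v ∈ oZone Mo l1 Φ (oZ T i) ∧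
    Near M.sd S (oL D l1 s3 Ld) (M.cv v) (M.cv (w i))
  par : ∀ i < T.n, ∀ p, T.par i = some p →
    Near M.sd S (2 * oL D l1 s3 Ld * s3) (M.cv (w i)) (M.cv (w p))

end Pool.Agent.H.MP_c8cc4c_co
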