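import Mathlib
import Pool.Agent.H.MP_c8cc4c_co.B.Star
import Pool.Agent.H.MP_c8cc4c_co.G.Mouth
import Pool.Agent.H.MP_c8cc4c_co.O.Defs

/-! # MP_c8cc4c_co, part O, file 1: mouths and the region `Q` -/

open scoped Classical
open Finset

noncomputable section

namespace Pool.Agent.H.MP_c8cc4c_co

variable {M : PC} {Q : Set M.V} {l1 : ℕ} {Mo : Mouths M}

/-- Every vertex has a face: there are at least two vertices, one in `Q` and one outside (`exists_at`). -/
theorem o_face (h : OD M Q l1 Mo) (x : M.V) : ∃ f, M.At f x := by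
  obtain ⟨q, hq⟩ := h.connQ.1
  obtain ⟨o, ho⟩ := h.connO.1
  by_cases hx : x ∈ Q
  · exact exists_at h.sph (x := x) (y := o) (fun e => ho (e ▸ hx))
  · exact exists_at h.sph (x := x) (y := q) (fun e => hx (e ▸ hq))

/-- An interior vertex of a mouth has a face in the mouth; all vertices of such a face are in `Q` (`inQ`). -/
theorem o_intr_Q (h : OD M Q l1 Mo) {i : Mo.I} {x : M.V} (hx : x ∈ M.intr (Mo.c i)) : x ∈ Q := by
  obtain ⟨f, hf⟩ := o_face h x
  refine h.cut.inQ i f x ?_ hf
  rw [hx f hf]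
  exact one_ne_zero

/-- the vertices outside `Q` are real (`o_intr_Q`) -/
theorem o_real (h : OD M Q l1 Mo) {x : M.V} (hx : x ∉ Q) : x ∈ Mo.Real := by
  intro i hi
  exact hx (o_intr_Q h hi)

/-- the boundary vertices of the mouths: real by `gv_real`; `gv i t` is on the edge `ge i t` which has a face in
the mouth (`ge_faces`), so it is in `Q` by `inQ` -/
theorem o_gv (h : OD M Q l1 Mo) (i : Mo.I) (t : ℕ) : Mo.gv i t ∈ Q ∩ Mo.Real := by
  refine ⟨?_, gv_real Mo h.sph i t⟩
  obtain ⟨f, g, -, hf, -, h1, -⟩ := ge_faces Mo h.sph i t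
  refine h.cut.inQ i f _ ?_ ⟨_, hf, (Mo.ge_inc i t).1⟩
  rw [h1]
  exact one_ne_zero

theorem o_not_real {x : M.V} (hx : x ∉ Mo.Real) : ∃ i, x ∈ M.intr (Mo.c i) := by
  by_contra hcon
  push Not at hcon
  exact hx hcon

/-- Two boundary vertices of a mouth are joined along the boundary. PROOF: `gv i (s + k)` is at distance at most
`k` from `gv i s` (induction; `gv i t`, `gv i (t + 1)` are adjacent by `ge_inc`, `gv_succ_ne`), and by
`gv_mod` one may assume that `s, t < n i`; symmetry. -/
theorem o_gv_near (i : Mo.I) (s t : ℕ) :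
    Near M.graph {z | ∃ t, Mo.gv i t = z} (Mo.n i) (Mo.gv i s) (Mo.gv i t) := by
  have hn := n_ge Mo i
  have h1 : ∀ s k, Near M.graph {z | ∃ t, Mo.gv i t = z} k (Mo.gv i s) (Mo.gv i (s + k)) := by
    intro s k
    induction k with
    | zero => exact near_refl ⟨s, rfl⟩
    | succ k ih =>
      refine near_trans ih (near_adj ⟨_, rfl⟩ ⟨_, rfl⟩ ?_)
      exact ⟨gv_succ_ne Mo i (s + k), _, Mo.ge_inc i (s + k)⟩
  rw [gv_mod Mo i s, gv_mod Mo i t]
  have hs : s % Mo.n i < Mo.n i := Nat.mod_lt _ (by omega)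
  have ht : t % Mo.n i < Mo.n i := Nat.mod_lt _ (by omega)
  rcases le_total (s % Mo.n i) (t % Mo.n i) with h2 | h2
  · have h3 := h1 (s % Mo.n i) (t % Mo.n i - s % Mo.n i)
    rw [Nat.add_sub_cancel' h2] at h3
    exact near_mono h3 (by omega) subset_rfl
  · have h3 := h1 (t % Mo.n i) (s % Mo.n i - t % Mo.n i)
    rw [Nat.add_sub_cancel' h2] at h3
    exact near_mono (near_symm h3) (by omega) subset_rfl

/-- A walk from an interior vertex of a mouth to a vertex which is not interior passes through a boundary vertex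
of the mouth (`near_exit` with `B = intr (c i)`, `adj_intr`; or induction with `near_succ`). -/
theorem o_exit (h : OD M Q l1 Mo) {A : Set M.V} {k : ℕ} {i : Mo.I} {x y : M.V}
    (hn : Near M.graph A k x y) (hx : x ∈ M.intr (Mo.c i)) (hy : y ∉ M.intr (Mo.c i)) :
    ∃ t, Near M.graph A k x (Mo.gv i t) := by
  obtain ⟨u, v, k', l, hk, h1, hadj, hv, h2⟩ := near_exit hn hx hy
  have h3 : Near M.graph A (k' + 1) x v :=
    near_trans (near_mono h1 le_rfl Set.inter_subset_left)
      (near_adj (near_right h1).1 (near_left h2) hadj)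
  rcases adj_intr Mo h.sph i (near_right h1).2 hadj with h4 | ⟨t, -, rfl⟩
  · exact absurd h4 hv
  · exact ⟨t, near_mono h3 (by omega) subset_rfl⟩

end Pool.Agent.H.MP_c8cc4c_co
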