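import Mathlib
import Pool.Agent.H.MP_c8cc4c_co.B.ConnF
import Pool.Agent.H.MP_c8cc4c_co.O.Base

/-! # MP_c8cc4c_co, part O, file 4: the children, first part -/

open scoped Classical
open Finset

noncomputable section

namespace Pool.Agent.H.MP_c8cc4c_co

variable {M : PC} {Q : Set M.V} {l1 : ℕ} {Mo : Mouths M}

/-- PROOF: induction on `n` with `near_succ`. `n = 0`: `x = gv i t` is not interior (`gv_real`). Step: `x` is adjacent to
`z`, `z` is interior (then induction; `x ∈ oV0` because `Near n+1 x (gv i t)`, `n + 1 ≤ hh`) or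
`z = gv i t'` (`adj_intr`). The vertices `gv` are in `oV0` by `o_gv`, `x ∈ Q` by `o_intr_Q`. -/
theorem o_shallow_walk (h : OD M Q l1 Mo) {hh n : ℕ} {i : Mo.I} {t : ℕ} {x : M.V}
    (hx : x ∈ M.intr (Mo.c i)) (hn : Near M.graph Set.univ n x (Mo.gv i t)) (hnh : n ≤ hh) :
    ∃ t', Near M.graph (oV0 Mo Q hh) n x (Mo.gv i t') := by
  induction n generalizing x with
  | zero =>
    obtain ⟨rfl, -⟩ := near_zero.1 hn
    exact absurd hx (gv_real Mo h.sph i t i)
  | succ n ih =>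
    have hxV : x ∈ oV0 Mo Q hh :=
      ⟨o_intr_Q h hx, Or.inr ⟨i, t, hx, near_mono hn hnh subset_rfl⟩⟩
    rcases near_succ.1 hn with h1 | ⟨-, z, hz, h1⟩
    · obtain ⟨t', ht'⟩ := ih hx h1 (by omega)
      exact ⟨t', near_mono ht' (Nat.le_succ n) subset_rfl⟩
    · rcases adj_intr Mo h.sph i hx hz with h2 | ⟨t', -, rfl⟩
      · obtain ⟨t', ht'⟩ := ih h2 h1 (by omega)
        refine ⟨t', near_mono (near_trans (near_adj hxV (near_left ht') hz) ht') ?_ subset_rfl⟩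
        omega
      · have h3 := o_gv h i t'
        have h4 : Mo.gv i t' ∈ oV0 Mo Q hh := ⟨h3.1, Or.inl h3.2⟩
        refine ⟨t', near_mono (near_adj hxV h4 hz) ?_ subset_rfl⟩
        omega

/-- the vertices of `oV0` are joined to real vertices in `Q` -/
theorem o_to_real (h : OD M Q l1 Mo) {hh : ℕ} {x : M.V} (hx : x ∈ oV0 Mo Q hh) :
    ∃ y ∈ Q ∩ Mo.Real, Near M.graph (oV0 Mo Q hh) hh x y := by
  obtain ⟨hxQ, hx1 | ⟨i, t, hxi, hn⟩⟩ := hx
  · have hxV : x ∈ oV0 Mo Q hh := ⟨hxQ, Or.inl hx1⟩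
    exact ⟨x, ⟨hxQ, hx1⟩, near_mono (near_refl hxV) (Nat.zero_le _) subset_rfl⟩
  · obtain ⟨t', ht'⟩ := o_shallow_walk h hxi hn le_rfl
    exact ⟨_, o_gv h i t', ht'⟩

/-- PROOF: the set is `Qᶜ ∪ oV0`. `Qᶜ` is connected, `Q ∩ Real` is connected (`h.cut.conn`), and they are joined by
an edge: by connectedness of `M` (`connOn_cross`) some edge joins `u ∈ Q` and `v ∉ Q`; `u` is real, otherwise
`u` is interior and `v` is interior or `gv i t` (`adj_intr`), hence in `Q` (`o_intr_Q`, `o_gv`). The vertices of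
`oV0` are joined to `Q ∩ Real` in `oV0` (`o_to_real`). -/
theorem o_A_conn (h : OD M Q l1 Mo) (hh : ℕ) : ConnOn M.graph (Q \ oV0 Mo Q hh)ᶜ := by
  have hG : ConnOn M.graph Set.univ :=
    ⟨⟨h.sph.nonempty.some, Set.mem_univ _⟩, fun x _ y _ => h.sph.conn x y⟩
  obtain ⟨x, hx⟩ := h.connQ.1
  obtain ⟨y, hy⟩ := h.connO.1
  obtain ⟨u, -, v, -, huQ, hvQ, huv⟩ :=
    connOn_cross hG (Set.mem_univ x) hx (Set.mem_univ y) hy
  have hu : u ∈ Mo.Real := by
    by_contra hu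
    obtain ⟨i, hi⟩ := o_not_real hu
    rcases adj_intr Mo h.sph i hi huv with h1 | ⟨t, -, rfl⟩
    · exact hvQ (o_intr_Q h h1)
    · exact hvQ (o_gv h i t).1
  have h1 : ConnOn M.graph (Qᶜ ∪ Q ∩ Mo.Real) :=
    connOn_union_adj h.connO h.cut.conn ⟨v, hvQ, u, ⟨huQ, hu⟩, huv.symm⟩
  have hsub : Qᶜ ∪ Q ∩ Mo.Real ⊆ (Q \ oV0 Mo Q hh)ᶜ := by
    rintro z (hz | hz) ⟨hz1, hz2⟩
    · exact hz hz1
    · exact hz2 ⟨hz.1, Or.inl hz.2⟩
  have hsub2 : oV0 Mo Q hh ⊆ (Q \ oV0 Mo Q hh)ᶜ := fun z hz hz' => hz'.2 hz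
  refine connOn_of_center (hsub (Or.inr ⟨huQ, hu⟩)) ?_
  intro z hz
  by_cases hzQ : z ∈ Q
  · have hzV : z ∈ oV0 Mo Q hh := by
      by_contra h2
      exact hz ⟨hzQ, h2⟩
    obtain ⟨w, hw, hn⟩ := o_to_real h hzV
    obtain ⟨n, hn'⟩ := h1.2 u (Or.inr ⟨huQ, hu⟩) w (Or.inr hw)
    exact ⟨n + hh, near_trans (near_mono hn' le_rfl hsub)
      (near_symm (near_mono hn le_rfl hsub2))⟩
  · obtain ⟨n, hn'⟩ := h1.2 u (Or.inr ⟨huQ, hu⟩) z (Or.inl hzQ)
    exact ⟨n, near_mono hn' le_rfl hsub⟩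

/-- PROOF: an element of `C` is not real, so interior to a mouth `i`. By `near_induct` all elements of `C` are
interior to `i`: a neighbour of an interior vertex is interior or `gv i t ∈ oV0` (`adj_intr`, `o_gv`). -/
theorem o_child_intr (h : OD M Q l1 Mo) {hh : ℕ} {C : Set M.V}
    (hC : IsComp M.graph (Q \ oV0 Mo Q hh) C) : ∃ i, C ⊆ M.intr (Mo.c i) := by
  obtain ⟨x, hx⟩ := hC.1.1
  have hxn : x ∉ Mo.Real := fun h1 => (hC.2.1 hx).2 ⟨(hC.2.1 hx).1, Or.inl h1⟩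
  obtain ⟨i, hi⟩ := o_not_real hxn
  refine ⟨i, fun y hy => ?_⟩
  obtain ⟨n, hn⟩ := hC.1.2 x hx y hy
  refine near_induct (A := C) (P := fun z => z ∈ M.intr (Mo.c i)) ?_ hn hi
  intro u v _ hv huv hu
  rcases adj_intr Mo h.sph i hu huv with h1 | ⟨t, -, rfl⟩
  · exact h1
  · have h2 := o_gv h i t
    exact absurd ⟨h2.1, Or.inl h2.2⟩ (hC.2.1 hv).2

/-- General fact: if the complement of `A` is connected and the graph is connected then the complement of every
component `C` of `A` is connected. PROOF: `x ∉ C`; if `x ∉ A` it is joined to the fixed vertex of `Aᶜ` in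
`Aᶜ ⊆ Cᶜ`. If `x ∈ A \ C`: let `n` and the walk be from `x` to a vertex of `Aᶜ`; `near_exit` with
`B = A`: a walk in `A` from `x` to `u`, `u` adjacent to `v ∉ A`; the walk does not meet `C`
(a vertex of the component `C` on it would give `x ∈ C`: `near_induct` with `P z = z ∈ C` from that vertex, or
`isComp_sub`; simpler: `comp G A x` is connected, contained in `A`, and not `C`, so it misses `C` by
`isComp_unique`). -/
theorem o_comp_compl {V : Type} {G : SimpleGraph V} {A C : Set V} (hG : ConnOn G Set.univ)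
    (hA : ConnOn G Aᶜ) (hC : IsComp G A C) : ConnOn G Cᶜ := by
  obtain ⟨a, ha⟩ := hA.1
  have hsub : Aᶜ ⊆ Cᶜ := fun z hz hz' => hz (hC.2.1 hz')
  refine connOn_of_center (hsub ha) ?_
  intro y hy
  by_cases hyA : y ∈ A
  · obtain ⟨n, hn⟩ := hG.2 y (Set.mem_univ y) a (Set.mem_univ a)
    obtain ⟨u, v, k, l, -, h1, h2, h3, -⟩ := near_exit (B := A) hn hyA ha
    have h4 : Near G A k y u := near_mono h1 le_rfl Set.inter_subset_right
    have h5 : Near G (A ∩ Cᶜ) k y u := by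
      refine near_sub h4 fun z hz hzC => ?_
      have h6 : comp G A y = C := isComp_unique (comp_isComp hyA) hC ⟨k, hz⟩ hzC
      exact hy (h6 ▸ mem_comp_self hyA)
    have h7 : Near G Cᶜ k y u := near_mono h5 le_rfl Set.inter_subset_right
    obtain ⟨m, hm⟩ := hA.2 v h3 a ha
    exact ⟨_, near_symm (near_trans (near_trans h7 (near_adj (near_right h7) (hsub h3) h2))
      (near_mono hm le_rfl hsub))⟩
  · obtain ⟨n, hn⟩ := hA.2 a ha y hyA
    exact ⟨n, near_mono hn le_rfl hsub⟩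

theorem o_child_compl (h : OD M Q l1 Mo) {hh : ℕ} {C : Set M.V}
    (hC : IsComp M.graph (Q \ oV0 Mo Q hh) C) : ConnOn M.graph Cᶜ := by
  have hG : ConnOn M.graph Set.univ :=
    ⟨⟨h.sph.nonempty.some, Set.mem_univ _⟩, fun x _ y _ => h.sph.conn x y⟩
  exact o_comp_compl hG (o_A_conn h hh) hC

end Pool.Agent.H.MP_c8cc4c_co
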