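import Mathlib
import Pool.Agent.H.MP_c8cc4c_co.B.Tau
import Pool.Agent.H.MP_c8cc4c_co.B.ConnF
import Pool.Agent.H.MP_c8cc4c_co.O.ChildA

/-! # MP_c8cc4c_co, part O, file 5: the children, second part -/

open scoped Classical
open Finset

noncomputable section

namespace Pool.Agent.H.MP_c8cc4c_co

variable {M : PC} {Q : Set M.V} {l1 : ℕ} {Mo : Mouths M}

/-- PROOF: `cut_card`; `C ⊆ intr (c i)` (`o_child_intr`); a vertex `y ∉ C` adjacent to `x ∈ C` is not in `Q \ oV0` (`IsComp`)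
and it is interior or `gv i t` (`adj_intr`), so in `oV0`; if it is interior to `i` it is within `hh` of some
`gv i t` (`intr_disj`); in both cases it is within `hh` of the set `{gv i t : t < n i}` with at most
`n i ≤ l1` elements (`gv_mod`): `ball_card_set`, `nbr_card`. -/
theorem o_child_cut (h : OD M Q l1 Mo) {D hh : ℕ} (hD : ∀ v, M.deg v ≤ D) {C : Set M.V}
    (hC : IsComp M.graph (Q \ oV0 Mo Q hh) C) :
    (M.cut C).card ≤ D * (l1 * (D + 1) ^ hh) := by
  have hM := h.sph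
  obtain ⟨i, hi⟩ := o_child_intr h hC
  refine (cut_card hM D hD C).trans (Nat.mul_le_mul_left _ ?_)
  let X : Set M.V := (fun t => Mo.gv i t) '' Set.Iio (Mo.n i)
  have hX : X.ncard ≤ l1 := by
    refine le_trans ?_ (h.cut.len i)
    refine (Set.ncard_image_le (Set.finite_Iio _)).trans ?_
    rw [show (Set.Iio (Mo.n i)) = ((Finset.range (Mo.n i) : Finset ℕ) : Set ℕ) by
      ext t; simp, Set.ncard_coe_finset, Finset.card_range]
  refine le_trans (Finset.card_le_card ?_) ((ball_card_set (G := M.graph) D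
    (fun v => (nbr_card hM v).trans (hD v)) Set.univ hh X).trans (Nat.mul_le_mul_right _ hX))
  intro y hy
  rw [Finset.mem_filter] at hy ⊢
  obtain ⟨-, hyC, x, hxC, hxy⟩ := hy
  refine ⟨mem_univ _, ?_⟩
  rcases adj_intr Mo hM i (hi hxC) hxy with hyi | ⟨t, ht, hty⟩
  · have hyQ : y ∈ Q := o_intr_Q h hyi
    have hy0 : y ∈ oV0 Mo Q hh := by
      by_contra hcon
      exact hyC (hC.2.2 x hxC y ⟨hyQ, hcon⟩ hxy)
    rcases hy0.2 with hreal | ⟨i', t, hyi', hnear⟩
    · exact absurd hyi (hreal i)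
    · obtain rfl : i' = i := intr_disj Mo hM hyi' hyi
      refine ⟨Mo.gv i' t, ⟨t % Mo.n i', Nat.mod_lt _ (by have := n_ge Mo i'; omega), ?_⟩,
        near_symm hnear⟩
      exact (gv_mod Mo i' t).symm
  · exact ⟨y, ⟨t, ht, hty⟩, near_mono (near_refl (Set.mem_univ y)) (Nat.zero_le _) le_rfl⟩

/-- PROOF: `x` is interior to a mouth `i` and not within `hh` of any `gv i t`. Suppose `Near k x y`. If `y` is not
interior to `i`, `o_exit` gives `Near k x (gv i t)`. If `y` is interior to `i`, it is not real, so it is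
interior to some mouth `i'` and within `j` of `gv i' t`; `i' = i` (`intr_disj`): `Near (k + j) x (gv i t)`. -/
theorem o_deep_far (h : OD M Q l1 Mo) {hh k j : ℕ} (hk : k + j ≤ hh) {x y : M.V} (hx : x ∈ Q)
    (hx' : x ∉ oV0 Mo Q hh) (hy : y ∈ oSh Mo j) : ¬ Near M.graph Set.univ k x y := by
  intro hn
  have hM := h.sph
  have hxs : x ∉ oSh Mo hh := fun hc => hx' ⟨hx, hc⟩
  have hxr : x ∉ Mo.Real := fun hc => hxs (Or.inl hc)
  obtain ⟨i, hi⟩ := o_not_real hxr
  have hfar : ∀ t, ¬ Near M.graph Set.univ hh x (Mo.gv i t) := fun t ht =>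
    hxs (Or.inr ⟨i, t, hi, ht⟩)
  by_cases hyi : y ∈ M.intr (Mo.c i)
  · rcases hy with hreal | ⟨i', t, hyi', hnear⟩
    · exact hreal i hyi
    · obtain rfl : i' = i := intr_disj Mo hM hyi' hyi
      exact hfar t (near_mono (near_trans hn hnear) hk le_rfl)
  · obtain ⟨t, ht⟩ := o_exit h hn hi hyi
    exact hfar t (near_mono ht (by omega) le_rfl)

/-- PROOF: `o_deep_far` with `j = 0`: the vertices outside `Q` are real. -/
theorem o_child_far (h : OD M Q l1 Mo) {hh r : ℕ} (hr : r ≤ hh) {C : Set M.V}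
    (hC : IsComp M.graph (Q \ oV0 Mo Q hh) C) {x y : M.V} (hx : x ∈ C) (hy : y ∉ Q) :
    ¬ Near M.graph Set.univ r x y :=
  o_deep_far h (j := 0) (by omega) (hC.2.1 hx).1 (hC.2.1 hx).2 (Or.inl (o_real h hy))

end Pool.Agent.H.MP_c8cc4c_co
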