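import Mathlib
import Pool.Agent.H.MP_c8cc4c_co.O.Base

/-! # MP_c8cc4c_co, part O, file 3: the outside and the degrees in the glued complex -/

open scoped Classical
open Finset

noncomputable section

namespace Pool.Agent.H.MP_c8cc4c_co

variable {M : PC} {Q : Set M.V} {l1 : ℕ} {Mo : Mouths M}

theorem o_glued_adj (h : OD M Q l1 Mo) {x y : M.V} (hx : x ∉ Q) (hy : y ∉ Q)
    (hxy : M.graph.Adj x y) :
    (glue M Mo).graph.Adj (⟨Sum.inl x, o_real h hx⟩ : (glue M Mo).V) ⟨Sum.inl y, o_real h hy⟩ := by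
  obtain ⟨hne, e, hex, hey⟩ := hxy
  refine ⟨fun h1 => hne (Sum.inl.inj (congrArg Subtype.val h1)), ⟨Sum.inl e, ?_⟩, ⟨x, hex, rfl⟩,
    ⟨y, hey, rfl⟩⟩
  intro z hz
  obtain ⟨a, b, -, hinc⟩ := h.sph.inc_two e
  have h1 : z = x ∨ z = y := by
    rcases (hinc x).1 hex with e1 | e1 <;> rcases (hinc y).1 hey with e2 | e2 <;>
      rcases (hinc z).1 hz with e3 | e3
    · exact Or.inl (e3.trans e1.symm)
    · exact absurd (e1.trans e2.symm) hne
    · exact Or.inl (e3.trans e1.symm)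
    · exact Or.inr (e3.trans e2.symm)
    · exact Or.inr (e3.trans e2.symm)
    · exact Or.inl (e3.trans e1.symm)
    · exact absurd (e1.trans e2.symm) hne
    · exact Or.inl (e3.trans e1.symm)
  rcases h1 with rfl | rfl
  · exact o_real h hx
  · exact o_real h hy

theorem o_glued_face_card (hM : M.IsSphere) (x : M.V) :
    (univ.filter fun f => M.At f x).card ≤ 2 * M.deg x := by
  have h1 : (univ.filter fun f => M.At f x) ⊆
      (univ.filter fun e => M.inc e x).biUnion fun e => univ.filter fun f => M.bd f e := by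
    intro f hf
    obtain ⟨e, he, hx⟩ := (mem_filter.1 hf).2
    exact mem_biUnion.2 ⟨e, mem_filter.2 ⟨mem_univ _, hx⟩, mem_filter.2 ⟨mem_univ _, he⟩⟩
  refine (card_le_card h1).trans ?_
  rw [mul_comm]
  refine card_biUnion_le_card_mul _ _ 2 fun e _ => ?_
  obtain ⟨f, g, -, hfg⟩ := hM.bd_two e
  refine (card_le_card (t := {f, g}) fun k hk => ?_).trans card_le_two
  rcases (hfg k).1 (mem_filter.1 hk).2 with rfl | rfl <;> simp

/-- PROOF: for `x, y ∉ Q` adjacent in `M` by the edge `e`: the ends of `e` are outside `Q` (`inc_two`), so real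
(`o_real`), `e` is an edge of the glued complex (`okE`) and joins `x`, `y` there. So walks in `Qᶜ` give walks
in `gO` (`near_induct` with `P z = ∃ n, Near _ (gO Mo Q) n ⟨Sum.inl x, _⟩ ⟨Sum.inl z, _⟩`). -/
theorem o_gO_conn (h : OD M Q l1 Mo) : ConnOn (glue M Mo).graph (gO Mo Q) := by
  obtain ⟨⟨x0, hx0⟩, hc⟩ := h.connO
  refine ⟨⟨⟨Sum.inl x0, o_real h hx0⟩, x0, rfl, hx0⟩, ?_⟩
  rintro ⟨v, hv⟩ ⟨x, hvx, hx⟩ ⟨w, hw⟩ ⟨y, hwy, hy⟩
  have e1 : v = Sum.inl x := hvx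
  have e2 : w = Sum.inl y := hwy
  subst e1 e2
  obtain ⟨n, hn⟩ := hc x hx y hy
  have hP : ∃ hz : y ∉ Q, ∃ n, Near (glue M Mo).graph (gO Mo Q) n ⟨Sum.inl x, o_real h hx⟩
      ⟨Sum.inl y, o_real h hz⟩ := by
    refine near_induct (fun z => ∃ hz : z ∉ Q, ∃ n, Near (glue M Mo).graph (gO Mo Q) n
      ⟨Sum.inl x, o_real h hx⟩ ⟨Sum.inl z, o_real h hz⟩) ?_ hn ⟨hx, 0, near_refl ⟨x, rfl, hx⟩⟩
    rintro u z hu hz huz ⟨hu', m, hm⟩
    exact ⟨hz, m + 1, near_trans hm (near_adj ⟨u, rfl, hu⟩ ⟨z, rfl, hz⟩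
      (o_glued_adj h hu hz huz))⟩
  obtain ⟨_, m, hm⟩ := hP
  exact ⟨m, hm⟩

/-- PROOF: for a mouth `i` at `x = gv i t` the edge `ge i t` at `x` has a face in the mouth (`ge_faces`). Map `i` to
this face; this is injective (`disj`); the face is one of the faces at the edges at `x`, and an edge
is in two faces: the number of faces at `x` is at most `2 deg x`. -/
theorem o_mouth_card (h : OD M Q l1 Mo) (x : M.V) :
    (univ.filter fun i => ∃ t, Mo.gv i t = x).card ≤ 2 * M.deg x := by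
  refine le_trans ?_ (o_glued_face_card h.sph x)
  have h1 : ∀ i, (∃ t, Mo.gv i t = x) → ∃ f, M.At f x ∧ Mo.c i f = 1 := by
    rintro i ⟨t, rfl⟩
    obtain ⟨f, g, -, hf, -, h2, -⟩ := ge_faces Mo h.sph i t
    exact ⟨f, ⟨_, hf, (Mo.ge_inc i t).1⟩, h2⟩
  have h2 : ∀ i, ∃ f, (∃ t, Mo.gv i t = x) → M.At f x ∧ Mo.c i f = 1 := by
    intro i
    by_cases hi : ∃ t, Mo.gv i t = x
    · obtain ⟨f, hf⟩ := h1 i hi
      exact ⟨f, fun _ => hf⟩
    · obtain ⟨f, -⟩ := o_face h x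
      exact ⟨f, fun hi' => absurd hi' hi⟩
  choose F hF using h2
  refine card_le_card_of_injOn F ?_ ?_
  · intro i hi
    have hi' := (mem_filter.1 (mem_coe.1 hi)).2
    exact mem_coe.2 (mem_filter.2 ⟨mem_univ _, (hF i hi').1⟩)
  · intro i hi j hj hij
    have hi' := (hF i (mem_filter.1 (mem_coe.1 hi)).2).2
    have hj' := (hF j (mem_filter.1 (mem_coe.1 hj)).2).2
    refine Mo.disj i j (F i) ?_ ?_
    · rw [hi']; exact one_ne_zero
    · rw [hij, hj']; exact one_ne_zero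

theorem o_deg (h : OD M Q l1 Mo) (hgd : GlueDegStmt) {D : ℕ} (hD : ∀ v, M.deg v ≤ D)
    (v : (glue M Mo).V) : (glue M Mo).deg v ≤ 3 * D + 4 := by
  obtain ⟨h1, h2⟩ := hgd M h.sph Mo v
  rcases hv : v.1 with x | p
  · have h3 := h1 x hv
    have h4 := o_mouth_card h x
    have h5 := hD x
    omega
  · rw [h2 p hv]
    omega

end Pool.Agent.H.MP_c8cc4c_co
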