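import Mathlib
import Pool.Agent.H.MP_c8cc4c_co.B.ConnF
import Pool.Agent.H.MP_c8cc4c_co.O.Base

/-! # MP_c8cc4c_co, part O, file 11: bodies and doors -/

open scoped Classical
open Finset

noncomputable section

namespace Pool.Agent.H.MP_c8cc4c_co

section cap

variable {M : PC} {Q : Set M.V} {l1 : ℕ} {Mo : Mouths M}

/-- A connected set without real vertices is in the interior of one cap. PROOF: if `v.1 = Sum.inr (i, a, b)` and `v'` is
adjacent to `v` by the edge `e` then `e.1 = Sum.inr (i, _, _, _)` (a raw edge `Sum.inl e'` is only incident with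
`Sum.inl _`; for `Sum.inr (j, _, x, y)` the ends are `gp j _ _`, which is `Sum.inl _` or `Sum.inr (j, _, _)`) and
`v'.1 = Sum.inl _` or `Sum.inr (i, _, _)`. So the index `i` is constant on `X` (`near_induct`), and `X` has at most
`a i * b i ≤ (n i) ^ 2 ≤ l1 ^ 2` elements (inject `v` to `(a, b) ∈ range (a i) × range (b i)` by `okV`). -/
theorem o_cap (h : OD M Q l1 Mo) {X : Set (glue M Mo).V} (hX : ConnOn (glue M Mo).graph X)
    (hno : ∀ v ∈ X, ∀ x, v.1 ≠ Sum.inl x) : X.ncard ≤ l1 ^ 2 := by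
  have hgp : ∀ (j : Mo.I) (x y : ℕ),
      Mo.gp j x y = Sum.inr (j, x, y) ∨ ∃ z, Mo.gp j x y = Sum.inl z := by
    intro j x y
    unfold Mouths.gp
    split_ifs
    · exact Or.inl rfl
    · exact Or.inr ⟨_, rfl⟩
  obtain ⟨v0, hv0⟩ := hX.1
  obtain ⟨i, a0, b0, hi⟩ : ∃ i a b, v0.1 = Sum.inr (i, a, b) := by
    rcases hv : v0.1 with x | ⟨i, a, b⟩
    · exact absurd hv (hno v0 hv0 x)
    · exact ⟨i, a, b, rfl⟩
  have hall : ∀ v ∈ X, ∃ a b, v.1 = Sum.inr (i, a, b) := by
    intro v hv
    obtain ⟨n, hn⟩ := hX.2 v0 hv0 v hv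
    refine near_induct (fun v : (glue M Mo).V => ∃ a b, v.1 = Sum.inr (i, a, b)) ?_ hn
      ⟨a0, b0, hi⟩
    rintro u w hu hw ⟨-, e, hue, hwe⟩ ⟨a, b, hab⟩
    change Mo.rinc e.1 u.1 at hue
    change Mo.rinc e.1 w.1 at hwe
    have hkey : ∀ (j : Mo.I) (x y x' y' : ℕ), u.1 = Mo.gp j x y → w.1 = Mo.gp j x' y' →
        ∃ a b, w.1 = Sum.inr (i, a, b) := by
      intro j x y x' y' h1 h2
      have hji : j = i := by
        rcases hgp j x y with h3 | ⟨z, h3⟩
        · rw [h3, hab] at h1
          simp only [Sum.inr.injEq, Prod.mk.injEq] at h1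
          exact h1.1.symm
        · rw [h3] at h1
          exact absurd h1 (hno u hu z)
      rcases hgp j x' y' with h3 | ⟨z, h3⟩
      · rw [h3, hji] at h2
        exact ⟨x', y', h2⟩
      · rw [h3] at h2
        exact absurd h2 (hno w hw z)
    rcases he : e.1 with e' | ⟨j, c, x, y⟩
    · rw [he] at hue
      obtain ⟨x, -, hx⟩ := hue
      exact absurd hx (hno u hu x)
    · rw [he] at hue hwe
      cases c with
      | false =>
        rcases hue with h1 | h1 <;> rcases hwe with h2 | h2 <;> exact hkey j _ _ _ _ h1 h2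
      | true =>
        rcases hue with h1 | h1 <;> rcases hwe with h2 | h2 <;> exact hkey j _ _ _ _ h1 h2
  have hlen := h.cut.len i
  unfold Mouths.n at hlen
  set f : (glue M Mo).V → ℕ × ℕ := fun v => match v.1 with
    | Sum.inl _ => (0, 0)
    | Sum.inr (_, a, b) => (a, b) with hf
  have hfv : ∀ (v : (glue M Mo).V) (a b : ℕ), v.1 = Sum.inr (i, a, b) → f v = (a, b) := by
    intro v a b hv
    simp only [hf]
    rw [hv]
  have hcard : X.ncard ≤ (↑(Finset.range (Mo.a i) ×ˢ Finset.range (Mo.b i)) : Set (ℕ × ℕ)).ncard := by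
    refine Set.ncard_le_ncard_of_injOn f ?_ ?_ (Finset.finite_toSet _)
    · intro v hv
      obtain ⟨a, b, hab⟩ := hall v hv
      rw [hfv v a b hab]
      have hok := v.2
      rw [hab] at hok
      change 0 < a ∧ a < Mo.a i ∧ 0 < b ∧ b < Mo.b i at hok
      rw [Finset.mem_coe, Finset.mem_product, Finset.mem_range, Finset.mem_range]
      exact ⟨hok.2.1, hok.2.2.2⟩
    · intro v hv w hw hvw
      obtain ⟨a, b, hab⟩ := hall v hv
      obtain ⟨a', b', hab'⟩ := hall w hw
      rw [hfv v a b hab, hfv w a' b' hab', Prod.mk.injEq] at hvw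
      apply Subtype.ext
      rw [hab, hab', hvw.1, hvw.2]
  rw [Set.ncard_coe_finset, Finset.card_product, Finset.card_range, Finset.card_range] at hcard
  refine hcard.trans ?_
  rw [sq]
  exact Nat.mul_le_mul (by omega) (by omega)

theorem o_point (h : OD M Q l1 Mo) {X : Set (glue M Mo).V} (hX : ConnOn (glue M Mo).graph X)
    (hs : l1 ^ 2 + 1 ≤ X.ncard) : ∃ v ∈ X, ∃ x, v.1 = Sum.inl x := by
  by_contra hcon
  have h1 := o_cap h hX (fun v hv x hx => hcon ⟨v, hv, x, hx⟩)
  omega

end cap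

variable {N : PC} {O : Set N.V} {r1 smin s3 Ld rho1 rhof : ℕ}

/-- PROOF: `X i ∪ Dr i`, and `X j` if `par i = some j`: `connOn_union` twice (`D_X`, `D_par`). -/
theorem oZ_conn (T : TEOut N O r1 smin s3 Ld rho1 rhof) {i : ℕ} (hi : i < T.n) :
    ConnOn N.graph (oZ T i) := by
  have h1 : ConnOn N.graph (T.X i ∪ T.Dr i) := by
    obtain ⟨x, hx1, hx2⟩ := T.D_X i hi
    exact connOn_union (T.X_conn i hi) (T.D_conn i hi) ⟨x, hx2, hx1⟩
  cases hp : T.par i with
  | none =>
    have e : oZ T i = T.X i ∪ T.Dr i := by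
      ext v
      simp [oZ, hp]
    rw [e]
    exact h1
  | some j =>
    have hj : j < T.n := (T.par_lt i hi j hp).trans hi
    have e : oZ T i = (T.X i ∪ T.Dr i) ∪ T.X j := by
      ext v
      simp [oZ, hp, or_assoc]
    rw [e]
    obtain ⟨x, hx1, hx2⟩ := T.D_par i hi j hp
    exact connOn_union h1 (T.X_conn j hj) ⟨x, Or.inr hx1, hx2⟩

theorem oZ_card (T : TEOut N O r1 smin s3 Ld rho1 rhof) {i : ℕ} (hi : i < T.n) :
    (oZ T i).ncard ≤ 2 * s3 + Ld := by
  have h1 : (T.X i ∪ T.Dr i).ncard ≤ s3 + Ld :=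
    (Set.ncard_union_le _ _).trans (Nat.add_le_add (T.X_max i hi) (T.D_card i hi))
  cases hp : T.par i with
  | none =>
    have e : oZ T i = T.X i ∪ T.Dr i := by
      ext v
      simp [oZ, hp]
    rw [e]
    omega
  | some j =>
    have hj : j < T.n := (T.par_lt i hi j hp).trans hi
    have e : oZ T i = (T.X i ∪ T.Dr i) ∪ T.X j := by
      ext v
      simp [oZ, hp, or_assoc]
    rw [e]
    have h2 := Set.ncard_union_le (T.X i ∪ T.Dr i) (T.X j)
    have h3 := T.X_max j hj
    omega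

/-- PROOF: nine cases. `a ∈ X i`, `b ∈ X j`: `F1`. `a ∈ X i`, `b ∈ Dr j`: `F2` for `Dr j`, `X i`: `par j = some i`.
`a ∈ X i`, `b ∈ X q`, `par j = some q`: `F1` gives `i = q`. `a ∈ Dr i`, `b ∈ Dr j`: `F3`: both `par` are `none`.
`a ∈ Dr i`, `b ∈ X q`, `par j = some q`: `q = i`, or `F2` gives `par i = some q`. `a ∈ X p`, `b ∈ X q`,
`par i = some p`, `par j = some q`: `F1` gives `p = q`. The remaining cases by symmetry. (`F1`, ... need `near_symm`
for the symmetric cases; `p, q < n` by `par_lt`.) -/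
theorem oZ_rel (T : TEOut N O r1 smin s3 Ld rho1 rhof) {i j : ℕ} (hi : i < T.n) (hj : j < T.n)
    (hij : i ≠ j) {a b : N.V} (ha : a ∈ oZ T i) (hb : b ∈ oZ T j)
    (hn : Near N.graph Set.univ r1 a b) :
    T.par i = some j ∨ T.par j = some i ∨ (∃ p, T.par i = some p ∧ T.par j = some p) ∨
      (T.par i = none ∧ T.par j = none ∧ a ∈ T.Dr i ∧ b ∈ T.Dr j) := by
  have hns := near_symm hn
  rcases ha with ha | ha | ⟨p, hp, ha⟩
  · rcases hb with hb | hb | ⟨q, hq, hb⟩
    · exact absurd hn (T.F1 i hi j hj hij a ha b hb)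
    · right; left
      by_contra hcon
      exact T.F2 j hj i hi hij hcon b hb a ha hns
    · right; left
      have hqn : q < T.n := (T.par_lt j hj q hq).trans hj
      by_cases hiq : i = q
      · rw [hiq]
        exact hq
      · exact absurd hn (T.F1 i hi q hqn hiq a ha b hb)
  · rcases hb with hb | hb | ⟨q, hq, hb⟩
    · left
      by_contra hcon
      exact T.F2 i hi j hj hij.symm hcon a ha b hb hn
    · right; right; right
      by_contra hcon
      refine T.F3 i hi j hj hij ?_ a ha b hb hn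
      rintro ⟨h1, h2⟩
      exact hcon ⟨h1, h2, ha, hb⟩
    · have hqn : q < T.n := (T.par_lt j hj q hq).trans hj
      by_cases hiq : q = i
      · right; left
        rw [← hiq]
        exact hq
      · right; right; left
        refine ⟨q, ?_, hq⟩
        by_contra hcon
        exact T.F2 i hi q hqn hiq hcon a ha b hb hn
  · have hpn : p < T.n := (T.par_lt i hi p hp).trans hi
    rcases hb with hb | hb | ⟨q, hq, hb⟩
    · left
      by_cases hpj : p = j
      · rw [← hpj]
        exact hp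
      · exact absurd hn (T.F1 p hpn j hj hpj a ha b hb)
    · by_cases hpj : p = j
      · left
        rw [← hpj]
        exact hp
      · right; right; left
        refine ⟨p, hp, ?_⟩
        by_contra hcon
        exact T.F2 j hj p hpn hpj hcon b hb a ha hns
    · right; right; left
      have hqn : q < T.n := (T.par_lt j hj q hq).trans hj
      refine ⟨p, hp, ?_⟩
      by_cases hpq : p = q
      · rw [hpq]
        exact hq
      · exact absurd hn (T.F1 p hpn q hqn hpq a ha b hb)

/-- PROOF: `F4`, `F4'`. -/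
theorem oZ_O (T : TEOut N O r1 smin s3 Ld rho1 rhof) {i : ℕ} (hi : i < T.n)
    (hp : T.par i ≠ none ∨ T.root = false) {a : N.V} (ha : a ∈ oZ T i) :
    ∀ y ∈ O, ¬ Near N.graph Set.univ r1 a y := by
  intro y hy
  rcases ha with ha | ha | ⟨p, hp', ha⟩
  · exact T.F4 i hi a ha y hy
  · exact T.F4' i hi hp a ha y hy
  · exact T.F4 p ((T.par_lt i hi p hp').trans hi) a ha y hy

/-- PROOF: for the siblings `j ≤ i` of `i` (`par j = some p`) choose `x j ∈ Dr j`, `x j ∈ X p` (`D_par`); these are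
different for different `j` (`F3`, distance `0 ≤ r1`), and `X p` has at most `s3` elements. -/
theorem oSib_le (T : TEOut N O r1 smin s3 Ld rho1 rhof) {i p : ℕ} (hi : i < T.n)
    (hp : T.par i = some p) : oSib T.par i ≤ s3 := by
  have hpn : p < T.n := (T.par_lt i hi p hp).trans hi
  have hex : ∀ j : ℕ, ∃ x, (j < T.n → T.par j = some p → x ∈ T.Dr j ∧ x ∈ T.X p) := by
    intro j
    by_cases hj : j < T.n ∧ T.par j = some p
    · obtain ⟨x, hx⟩ := T.D_par j hj.1 p hj.2
      exact ⟨x, fun _ _ => hx⟩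
    · obtain ⟨x, -⟩ := (T.X_conn i hi).1
      exact ⟨x, fun h1 h2 => absurd ⟨h1, h2⟩ hj⟩
  choose x hx using hex
  have hmem : ∀ j ∈ (↑((range (i + 1)).filter fun j => T.par j = T.par i) : Set ℕ),
      j < T.n ∧ T.par j = some p := by
    intro j hj
    rw [Finset.mem_coe, Finset.mem_filter, Finset.mem_range] at hj
    exact ⟨by omega, hj.2.trans hp⟩
  unfold oSib
  rw [← Set.ncard_coe_finset]
  refine le_trans ?_ (T.X_max p hpn)
  refine Set.ncard_le_ncard_of_injOn x ?_ ?_ (Set.toFinite _)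
  · intro j hj
    obtain ⟨h1, h2⟩ := hmem j hj
    exact (hx j h1 h2).2
  · intro j hj j' hj' hjj
    obtain ⟨h1, h2⟩ := hmem j hj
    obtain ⟨h3, h4⟩ := hmem j' hj'
    by_contra hne
    refine T.F3 j h1 j' h3 hne (fun h5 => by rw [h2] at h5; exact Option.some_ne_none _ h5.1)
      (x j) (hx j h1 h2).1 (x j') (hx j' h3 h4).1 ?_
    rw [hjj]
    exact near_mono (near_refl (Set.mem_univ _)) (Nat.zero_le _) subset_rfl

end Pool.Agent.H.MP_c8cc4c_co
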