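import Mathlib
import Pool.Agent.H.MP_c8cc4c_co.B.Chain
import Pool.Agent.H.MP_c8cc4c_co.B.Conn
import Pool.Agent.H.MP_c8cc4c_co.F.SdA
import Pool.Agent.H.MP_c8cc4c_co.O.Defs

/-! # MP_c8cc4c_co, part O, file 6: adding a leaf -/

open scoped Classical
open Finset

noncomputable section

namespace Pool.Agent.H.MP_c8cc4c_co

variable {M : PC} {Q : Set M.V} {O0 S : Set M.Cell}

/-- the two ends of an edge with two given different ends -/
theorem treeA_ends (hM : M.IsSphere) {e : M.E} {u v x : M.V} (hu : M.inc e u) (hv : M.inc e v)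
    (hne : u ≠ v) (hx : M.inc e x) : x = u ∨ x = v := by
  obtain ⟨a, b, hab, h⟩ := hM.inc_two e
  have h1 := (h u).1 hu
  have h2 := (h v).1 hv
  have h3 := (h x).1 hx
  rcases h1 with h1 | h1 <;> rcases h2 with h2 | h2
  · exact absurd (h1.trans h2.symm) hne
  · rw [h1, h2]; exact h3
  · rw [h1, h2]; exact h3.symm
  · exact absurd (h1.trans h2.symm) hne

theorem treeA_not_below_cv {c : M.Cell} {x : M.V} (h : M.below c (M.cv x)) : False := by
  rcases c with y | e | f <;> exact h

theorem treeA_below_ce {c : M.Cell} {e : M.E} (h : M.below c (M.ce e)) :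
    ∃ x, M.inc e x ∧ c = M.cv x := by
  rcases c with y | e' | f
  · exact ⟨y, h, rfl⟩
  · exact absurd h id
  · exact absurd h id

theorem treeA_cv_below_ce {x : M.V} {e : M.E} : M.below (M.cv x) (M.ce e) ↔ M.inc e x := Iff.rfl

theorem treeA_cv_below_cf {x : M.V} {f : M.F} : M.below (M.cv x) (M.cf f) ↔ M.At f x := Iff.rfl

theorem treeA_trans {a b c : M.Cell} (h : M.below a b) (h' : M.below b c) : M.below a c := by
  rcases a with x | e | f <;> rcases b with x' | e' | f' <;> rcases c with x'' | e'' | f'' <;>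
    first
    | exact absurd h id
    | exact absurd h' id
    | exact ⟨_, h', h⟩

theorem treeA_mem_out {Q : Set M.V} {c : M.Cell} :
    c ∈ oOut M Q ↔ ∀ x, (M.cv x = c ∨ M.below (M.cv x) c) → x ∉ Q := Iff.rfl

theorem treeA_cv_out {Q : Set M.V} {x : M.V} : M.cv x ∈ oOut M Q ↔ x ∉ Q := by
  rw [treeA_mem_out]
  constructor
  · intro h
    exact h x (Or.inl rfl)
  · rintro h y (hy | hy)
    · rw [SdA_cv_inj.1 hy]
      exact h
    · exact absurd hy treeA_not_below_cv

/-- Adding a leaf. PROOF: `S' = S ∪ {cv v, ce e}`. `ce e ∉ S` (`down`: `cv v` is below `ce e`). More generally a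
cell `d ∈ S` has nothing to do with `v`: `below (cv v) d` is impossible. `conn`: `cv u` — `ce e` — `cv v`
(`sd_adj_ve`). `down`: the cells below `ce e` are `cv u` and `cv v` (`inc_two`). `face`: `cf f ∈ S'` means
`cf f ∈ S`. `acyc`: let `z` be even and supported in `S'`. The edges of the subdivision at `cv v` with both
ends in `S'`: only the edge `(cv v, ce e)` (the other end is `ce e' ≠ ce e` or `cf f`, in `S`, above `cv v`:
impossible). By evenness at `cv v` it is not in `z`. The edges at `ce e` with both ends in `S'` are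
`(cv v, ce e)`, `(cv u, ce e)` (`(ce e, cf f)` would give `cf f ∈ S`, `ce e ∈ S`), so `(cv u, ce e)`
is not in `z` either (`ev_other` is useful). So `z` is supported in `S` and `hS.acyc` applies. -/
theorem ogood_leaf (hM : M.IsSphere) (hS : OGood M Q O0 S) {e : M.E} {u v : M.V}
    (hu : M.inc e u) (hv : M.inc e v) (hne : u ≠ v) (huS : M.cv u ∈ S) (hvS : M.cv v ∉ S) :
    OGood M Q O0 (S ∪ {M.cv v, M.ce e}) := by
  have heS : M.ce e ∉ S := fun h => hvS (hS.down _ _ (show M.below (M.cv v) (M.ce e) from hv) h)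
  have hve : M.sd.Adj (M.cv v) (M.ce e) := sd_adj_ve.2 hv
  have hue : M.sd.Adj (M.cv u) (M.ce e) := sd_adj_ve.2 hu
  have hpair : ConnOn M.sd ({M.cv v, M.ce e} : Set M.Cell) := by
    have h2 : Near M.sd ({M.cv v, M.ce e} : Set M.Cell) 1 (M.cv v) (M.ce e) :=
      near_adj (Or.inl rfl) (Or.inr rfl) hve
    refine connOn_of_center (x := M.cv v) (Or.inl rfl) ?_
    rintro y (rfl | rfl)
    · exact ⟨0, near_refl (Or.inl rfl)⟩
    · exact ⟨1, h2⟩
  refine ⟨fun c hc => Or.inl (hS.sub hc), ?_, ?_, ?_, ?_⟩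
  · exact connOn_union_adj hS.conn hpair ⟨M.cv u, huS, M.ce e, Or.inr rfl, hue⟩
  · rintro c d hcd (hd | hd | hd)
    · exact Or.inl (hS.down c d hcd hd)
    · rw [hd] at hcd
      exact absurd hcd treeA_not_below_cv
    · rw [Set.mem_singleton_iff] at hd
      rw [hd] at hcd
      obtain ⟨x, hx, rfl⟩ := treeA_below_ce hcd
      rcases treeA_ends hM hu hv hne hx with rfl | rfl
      · exact Or.inl huS
      · exact Or.inr (Or.inl rfl)
  · rintro f (hf | hf | hf)
    · exact hS.face f hf
    · exact absurd hf.symm SdA_cv_cf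
    · exact absurd (Set.mem_singleton_iff.1 hf).symm SdA_ce_cf
  · intro z hz hsup
    have hA : ∀ p, z p ≠ 0 → M.sdPC.inc p (M.cv v) → p.1 = (M.cv v, M.ce e) := by
      rintro ⟨⟨c, d⟩, hcd⟩ hp hinc
      rw [SdA_inc_iff] at hinc
      have hc : c = M.cv v := by
        rcases hinc with h | h
        · exact h.symm
        · exfalso
          have h1 : d = M.cv v := h.symm
          have h2 : M.below c d := hcd
          rw [h1] at h2
          exact treeA_not_below_cv h2
      have hd : d ∈ S ∪ {M.cv v, M.ce e} := hsup _ d hp (Or.inr rfl)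
      have hcd' : M.below c d := hcd
      rw [hc] at hcd'
      rcases hd with hd | hd | hd
      · exact absurd (hS.down _ _ hcd' hd) hvS
      · rw [hd] at hcd'
        exact absurd hcd' treeA_not_below_cv
      · rw [Set.mem_singleton_iff] at hd
        change (c, d) = _
        rw [hc, hd]
    have hA' : ∀ p, z p ≠ 0 → ¬ M.sdPC.inc p (M.cv v) := by
      intro p hp hinc
      obtain ⟨p', hne', hp', hinc'⟩ := ev_other hz hp hinc
      exact hne' (Subtype.ext ((hA p' hp' hinc').trans (hA p hp hinc).symm))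
    have hB : ∀ p, z p ≠ 0 → M.sdPC.inc p (M.ce e) → p.1 = (M.cv u, M.ce e) := by
      rintro ⟨⟨c, d⟩, hcd⟩ hp hinc
      rw [SdA_inc_iff] at hinc
      have hcd' : M.below c d := hcd
      rcases hinc with h | h
      · exfalso
        have hc : c = M.ce e := h.symm
        have hd : d ∈ S ∪ {M.cv v, M.ce e} := hsup _ d hp (Or.inr rfl)
        rw [hc] at hcd'
        rcases hd with hd | hd | hd
        · exact heS (hS.down _ _ hcd' hd)
        · rw [hd] at hcd'
          exact treeA_not_below_cv hcd'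
        · rw [Set.mem_singleton_iff] at hd
          rw [hd] at hcd'
          exact SdA_below_ne hcd' rfl
      · have hd : d = M.ce e := h.symm
        rw [hd] at hcd'
        obtain ⟨x, hx, hxc⟩ := treeA_below_ce hcd'
        rcases treeA_ends hM hu hv hne hx with rfl | rfl
        · change (c, d) = _
          rw [hxc, hd]
        · exfalso
          exact hA' _ hp (Or.inl hxc.symm)
    have hB' : ∀ p, z p ≠ 0 → ¬ M.sdPC.inc p (M.ce e) := by
      intro p hp hinc
      obtain ⟨p', hne', hp', hinc'⟩ := ev_other hz hp hinc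
      exact hne' (Subtype.ext ((hB p' hp' hinc').trans (hB p hp hinc).symm))
    refine hS.acyc z hz ?_
    intro p x hp hx
    rcases hsup p x hp hx with h | h | h
    · exact h
    · rw [h] at hx
      exact absurd hx (hA' p hp)
    · rw [Set.mem_singleton_iff.1 h] at hx
      exact absurd hx (hB' p hp)

/-- one vertex; an edge of the subdivision has two different ends (`sd_inc_two`) -/
theorem ogood_single (M : PC) (Q : Set M.V) (w : M.V) : OGood M Q ∅ {M.cv w} := by
  refine ⟨Set.empty_subset _, connOn_singleton _, ?_, ?_, ?_⟩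
  · intro c d hcd hd
    rw [Set.mem_singleton_iff] at hd
    rw [hd] at hcd
    exact absurd hcd treeA_not_below_cv
  · intro f hf
    exact absurd (Set.mem_singleton_iff.1 hf).symm SdA_cv_cf
  · intro z _ hsup p x hp _
    exfalso
    obtain ⟨a, b, hab, h⟩ := sd_inc_two M p
    have h1 := Set.mem_singleton_iff.1 (hsup p a hp ((h a).2 (Or.inl rfl)))
    have h2 := Set.mem_singleton_iff.1 (hsup p b hp ((h b).2 (Or.inr rfl)))
    exact hab (h1.trans h2.symm)

/-- `oOut` is connected: every cell of `oOut` is `cv x` or adjacent to some `cv x`, `x ∉ Q` (an edge has a vertex,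
a face has a vertex: `face_ne`, `inc_two`), and adjacent vertices `x, y ∉ Q` are joined by `ce e`
(the two ends of `e` are `x`, `y`). -/
theorem ogood_out (hM : M.IsSphere) (hO : ConnOn M.graph Qᶜ) : OGood M Q (oOut M Q) (oOut M Q) := by
  refine ⟨subset_rfl, ?_, ?_, ?_, fun z _ h => h⟩
  · obtain ⟨x0, hx0⟩ := hO.1
    refine connOn_of_center (x := M.cv x0) (treeA_cv_out.2 hx0) ?_
    have key : ∀ y, y ∉ Q → ∃ n, Near M.sd (oOut M Q) n (M.cv x0) (M.cv y) := by
      intro y hy
      obtain ⟨n, hn⟩ := hO.2 x0 hx0 y hy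
      refine near_induct (P := fun y => ∃ n, Near M.sd (oOut M Q) n (M.cv x0) (M.cv y)) ?_ hn
        ⟨0, near_refl (treeA_cv_out.2 hx0)⟩
      rintro a b ha hb ⟨hne, e, hea, heb⟩ ⟨m, hm⟩
      have heO : M.ce e ∈ oOut M Q := by
        rw [treeA_mem_out]
        rintro x (hx | hx)
        · exact absurd hx SdA_cv_ce
        · rcases treeA_ends hM hea heb hne hx with rfl | rfl
          · exact ha
          · exact hb
      exact ⟨m + 1 + 1, near_trans (near_trans hm (near_adj (treeA_cv_out.2 ha) heO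
        (sd_adj_ve.2 hea))) (near_adj heO (treeA_cv_out.2 hb) (sd_adj_ve.2 heb).symm)⟩
    intro c hc
    have hc' := hc
    rw [treeA_mem_out] at hc'
    rcases c with x | e | f
    · exact key x (hc' x (Or.inl rfl))
    · obtain ⟨x, y, _, h⟩ := hM.inc_two e
      have hx : M.inc e x := (h x).2 (Or.inl rfl)
      have hxQ : x ∉ Q := hc' x (Or.inr hx)
      obtain ⟨n, hn⟩ := key x hxQ
      exact ⟨n + 1, near_trans hn (near_adj (treeA_cv_out.2 hxQ) hc (sd_adj_ve.2 hx))⟩
    · obtain ⟨e, he⟩ := hM.face_ne f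
      obtain ⟨x, y, _, h⟩ := hM.inc_two e
      have hx : M.At f x := ⟨e, he, (h x).2 (Or.inl rfl)⟩
      have hxQ : x ∉ Q := hc' x (Or.inr hx)
      obtain ⟨n, hn⟩ := key x hxQ
      exact ⟨n + 1, near_trans hn (near_adj (treeA_cv_out.2 hxQ) hc (sd_adj_vf.2 hx))⟩
  · intro c d hcd hd
    rw [treeA_mem_out] at hd ⊢
    rintro x (rfl | hx)
    · exact hd x (Or.inr hcd)
    · exact hd x (Or.inr (treeA_trans hx hcd))
  · intro f hf x hx
    exact hf x (Or.inr hx)

end Pool.Agent.H.MP_c8cc4c_co
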