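import Mathlib
import Pool.Agent.H.MP_c8cc4c_co.O.TreeA

/-! # MP_c8cc4c_co, part O, file 8: whiskers -/

open scoped Classical
open Finset

noncomputable section

namespace Pool.Agent.H.MP_c8cc4c_co

variable {M : PC} {Q : Set M.V} {O0 S : Set M.Cell}

/-- Adding a whisker. PROOF: induction on `n` (all `w`), `near_succ`. `n = 0`: `w = y`, `S' = S`, `y' = y`.
Step: if `cv w ∈ S` take `S' = S`, `y' = w`. Otherwise, if `Near n w y` use the induction hypothesis. Otherwise `w ∈ A` is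
adjacent to `w1` and `Near n w1 y`: the induction hypothesis for `w1` gives `S1`, `y'`. If `cv w ∈ S1`, then
`cv w ∉ S` gives `Near M.sd S1 (2 ^ (n + 1)) (cv w) (cv w1)` and `S' = S1` works (all distances to `cv w` are at most
`2 * 2 ^ (n + 1)`). If `cv w ∉ S1`: let `e` be the edge joining `w`, `w1`, `S' = S1 ∪ {cv w, ce e}`
(`ogood_leaf`), `Near M.sd S' 2 (cv w) (cv w1)`, and `2 ^ (n + 1) + 2 ≤ 2 ^ (n + 2)`. A vertex cell in `S'` is
in `S1` or is `cv w`. -/
theorem o_whisker (hM : M.IsSphere) (hS : OGood M Q O0 S) {A : Set M.V} {n : ℕ} {w y : M.V}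
    (hn : Near M.graph A n w y) (hy : M.cv y ∈ S) :
    ∃ S', S ⊆ S' ∧ OGood M Q O0 S' ∧ M.cv w ∈ S' ∧
      (∃ y' ∈ A, M.cv y' ∈ S ∧ Near M.sd S' (2 ^ (n + 1)) (M.cv w) (M.cv y')) ∧
      ∀ v, M.cv v ∈ S' → M.cv v ∈ S ∨
        (v ∈ A ∧ Near M.sd S' (2 ^ (n + 1)) (M.cv v) (M.cv w)) := by
  induction n generalizing w with
  | zero =>
    obtain ⟨rfl, hA⟩ := near_zero.1 hn
    exact ⟨S, subset_rfl, hS, hy, ⟨w, hA, hy, near_mono (near_refl hy) (Nat.zero_le _) subset_rfl⟩,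
      fun v hv => Or.inl hv⟩
  | succ n ih =>
    have hpow : 2 ^ (n + 1 + 1) = 2 ^ (n + 1) + 2 ^ (n + 1) := by
      rw [pow_succ 2 (n + 1)]
      ring
    have hpow2 : 2 ≤ 2 ^ (n + 1) := by
      rw [pow_succ]
      have := Nat.one_le_two_pow (n := n)
      omega
    rcases near_succ.1 hn with hn' | ⟨hwA, w1, hadj, hn'⟩
    · obtain ⟨S', h1, h2, h3, ⟨y', hy'A, hy', h4⟩, h5⟩ := ih hn'
      refine ⟨S', h1, h2, h3, ⟨y', hy'A, hy', near_mono h4 (by omega) subset_rfl⟩, fun v hv => ?_⟩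
      rcases h5 v hv with h6 | ⟨h6, h7⟩
      · exact Or.inl h6
      · exact Or.inr ⟨h6, near_mono h7 (by omega) subset_rfl⟩
    · by_cases hwS : M.cv w ∈ S
      · exact ⟨S, subset_rfl, hS, hwS,
          ⟨w, hwA, hwS, near_mono (near_refl hwS) (Nat.zero_le _) subset_rfl⟩,
          fun v hv => Or.inl hv⟩
      obtain ⟨S1, h1, h2, h3, ⟨y', hy'A, hy', h4⟩, h5⟩ := ih hn'
      by_cases hwS1 : M.cv w ∈ S1
      · rcases h5 w hwS1 with h6 | ⟨-, h6⟩
        · exact absurd h6 hwS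
        · refine ⟨S1, h1, h2, hwS1, ⟨y', hy'A, hy', near_mono (near_trans h6 h4) (by omega)
            subset_rfl⟩, fun v hv => ?_⟩
          rcases h5 v hv with h7 | ⟨h7, h8⟩
          · exact Or.inl h7
          · exact Or.inr ⟨h7, near_mono (near_trans h8 (near_symm h6)) (by omega) subset_rfl⟩
      · obtain ⟨hne, e, hew, hew1⟩ := hadj
        have hsub : S1 ⊆ S1 ∪ {M.cv w, M.ce e} := Set.subset_union_left
        have hw' : M.cv w ∈ S1 ∪ {M.cv w, M.ce e} := Or.inr (Or.inl rfl)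
        have he' : M.ce e ∈ S1 ∪ {M.cv w, M.ce e} := Or.inr (Or.inr rfl)
        have hw1' : M.cv w1 ∈ S1 ∪ {M.cv w, M.ce e} := Or.inl h3
        have hN : Near M.sd (S1 ∪ {M.cv w, M.ce e}) (1 + 1) (M.cv w) (M.cv w1) :=
          near_trans (near_adj hw' he' (sd_adj_ve.2 hew))
            (near_symm (near_adj hw1' he' (sd_adj_ve.2 hew1)))
        refine ⟨S1 ∪ {M.cv w, M.ce e}, h1.trans hsub, ogood_leaf hM h2 hew1 hew hne.symm h3 hwS1,
          hw', ⟨y', hy'A, hy', near_mono (near_trans hN (near_mono h4 le_rfl hsub)) (by omega)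
            subset_rfl⟩, fun v hv => ?_⟩
        rcases hv with hv | hv | hv
        · rcases h5 v hv with h7 | ⟨h7, h8⟩
          · exact Or.inl h7
          · exact Or.inr ⟨h7, near_mono (near_trans (near_mono h8 le_rfl hsub) (near_symm hN))
              (by omega) subset_rfl⟩
        · rw [SdA_cv_inj] at hv
          subst hv
          exact Or.inr ⟨hwA, near_mono (near_refl hw') (Nat.zero_le _) subset_rfl⟩
        · exact absurd hv SdA_cv_ce

end Pool.Agent.H.MP_c8cc4c_co
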