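import Mathlib
import Pool.Agent.H.MP_c8cc4c_co.O.GrowA

/-! # MP_c8cc4c_co, part O, file 9: growing the tree -/

open scoped Classical
open Finset

noncomputable section

namespace Pool.Agent.H.MP_c8cc4c_co

variable {M : PC} {Q : Set M.V} {O0 S0 : Set M.Cell}

/-- `oSib` grows along siblings -/
theorem oSib_lt {par : ℕ → Option ℕ} {i j : ℕ} (hij : j < i) (hp : par i = par j) :
    oSib par j + 1 ≤ oSib par i := by
  refine Nat.succ_le_of_lt (Finset.card_lt_card ?_)
  rw [Finset.ssubset_iff_of_subset]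
  · refine ⟨i, ?_, ?_⟩
    · rw [Finset.mem_filter, Finset.mem_range]
      exact ⟨Nat.lt_succ_self i, rfl⟩
    · rw [Finset.mem_filter, Finset.mem_range]
      rintro ⟨h, -⟩
      omega
  · intro k hk
    rw [Finset.mem_filter, Finset.mem_range] at hk ⊢
    exact ⟨by omega, hk.2.trans hp.symm⟩

theorem oSib_pos (par : ℕ → Option ℕ) (i : ℕ) : 1 ≤ oSib par i := by
  refine Nat.succ_le_of_lt (Finset.card_pos.2 ⟨i, ?_⟩)
  rw [Finset.mem_filter, Finset.mem_range]
  exact ⟨Nat.lt_succ_self i, rfl⟩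

/-- The construction of the tree. PROOF: induction on `n`; let `S` be the set for `n` and add the whisker from `w n`
(`o_whisker` with `A = A n`) to `w j` if `par n = some j` (`cv (w j) ∈ S` as `j < n`), to the `y` of `walk0`
(`cv y ∈ S0 ⊆ S`) if `par n = none`. Let `L = 2 ^ (LA + 1)`. The third statement for `S'`: old vertices by induction
(`near_mono`), new ones with `i = n`. The fourth statement for `i = n`, `par n = some p`: `y' ∈ A n`, `cv y' ∈ S`,
`Near L (cv (w n)) (cv y')`. By the third statement for `S` either `cv y' ∈ S0`, then `y' = w p` (`hS0A`), or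
`y' ∈ A j`, `j < n`, `Near L (cv y') (cv (w j))`; by `rel` `par n = some j`, so `j = p` and the distance is at most `2 L`;
or `par n = par j`, so `par j = some p` and the distance is at most `2 L + 2 L * oSib par j ≤ 2 L * oSib par n`
(`oSib_lt`). -/
theorem o_grow (hM : M.IsSphere) (hS0 : OGood M Q O0 S0) (n : ℕ) (par : ℕ → Option ℕ)
    (w : ℕ → M.V) (A : ℕ → Set M.V) (LA : ℕ)
    (par_lt : ∀ i < n, ∀ j, par i = some j → j < i)
    (hwA : ∀ i < n, w i ∈ A i)
    (walk : ∀ i < n, ∀ j, par i = some j → Near M.graph (A i) LA (w i) (w j))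
    (walk0 : ∀ i < n, par i = none → ∃ y, M.cv y ∈ S0 ∧ Near M.graph (A i) LA (w i) y)
    (rel : ∀ i < n, ∀ j < i, (∃ v ∈ A i, v ∈ A j) → par i = some j ∨ par i = par j)
    (hS0A : ∀ i < n, ∀ p, par i = some p → ∀ v ∈ A i, M.cv v ∈ S0 → v = w p) :
    ∃ S, S0 ⊆ S ∧ OGood M Q O0 S ∧ (∀ i < n, M.cv (w i) ∈ S) ∧
      (∀ v, M.cv v ∈ S → M.cv v ∈ S0 ∨
        ∃ i < n, v ∈ A i ∧ Near M.sd S (2 ^ (LA + 1)) (M.cv v) (M.cv (w i))) ∧
      (∀ i < n, ∀ p, par i = some p →
        Near M.sd S (2 * 2 ^ (LA + 1) * oSib par i) (M.cv (w i)) (M.cv (w p))) := by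
  induction n with
  | zero =>
    exact ⟨S0, subset_rfl, hS0, fun i hi => absurd hi (Nat.not_lt_zero i), fun v hv => Or.inl hv,
      fun i hi => absurd hi (Nat.not_lt_zero i)⟩
  | succ n ih =>
    obtain ⟨S, h1, h2, h3, h4, h5⟩ := ih (fun i hi => par_lt i (by omega))
      (fun i hi => hwA i (by omega)) (fun i hi => walk i (by omega))
      (fun i hi => walk0 i (by omega)) (fun i hi => rel i (by omega))
      (fun i hi => hS0A i (by omega))
    obtain ⟨y, hy1, hy2⟩ : ∃ y, Near M.graph (A n) LA (w n) y ∧ M.cv y ∈ S := by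
      cases hp : par n with
      | none =>
        obtain ⟨y, a1, a2⟩ := walk0 n (Nat.lt_succ_self n) hp
        exact ⟨y, a2, h1 a1⟩
      | some j =>
        exact ⟨w j, walk n (Nat.lt_succ_self n) j hp,
          h3 j (par_lt n (Nat.lt_succ_self n) j hp)⟩
    obtain ⟨S', g1, g2, g3, ⟨y', b1, b2, b3⟩, g5⟩ := o_whisker hM h2 hy1 hy2
    refine ⟨S', h1.trans g1, g2, ?_, ?_, ?_⟩
    · intro i hi
      rcases Nat.lt_succ_iff_lt_or_eq.1 hi with hi' | rfl
      · exact g1 (h3 i hi')
      · exact g3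
    · intro v hv
      rcases g5 v hv with hv' | ⟨c1, c2⟩
      · rcases h4 v hv' with hv0 | ⟨i, hi, c1, c2⟩
        · exact Or.inl hv0
        · exact Or.inr ⟨i, by omega, c1, near_mono c2 le_rfl g1⟩
      · exact Or.inr ⟨n, Nat.lt_succ_self n, c1, c2⟩
    · intro i hi p hp
      rcases Nat.lt_succ_iff_lt_or_eq.1 hi with hi' | rfl
      · exact near_mono (h5 i hi' p hp) le_rfl g1
      · have hpos := oSib_pos par i
        rcases h4 y' b2 with hv0 | ⟨j, hj, c1, c2⟩
        · have hyw := hS0A i hi p hp y' b1 hv0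
          subst hyw
          refine near_mono b3 ?_ subset_rfl
          calc 2 ^ (LA + 1) ≤ 2 * 2 ^ (LA + 1) := by omega
            _ = 2 * 2 ^ (LA + 1) * 1 := (Nat.mul_one _).symm
            _ ≤ 2 * 2 ^ (LA + 1) * oSib par i := Nat.mul_le_mul_left _ hpos
        · have c3 := near_trans b3 (near_mono c2 le_rfl g1)
          rcases rel i hi j hj ⟨y', b1, c1⟩ with hr | hr
          · have hjp : j = p := by
              rw [hp] at hr
              exact (Option.some.inj hr).symm
            subst hjp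
            refine near_mono c3 ?_ subset_rfl
            calc 2 ^ (LA + 1) + 2 ^ (LA + 1) = 2 * 2 ^ (LA + 1) * 1 := by ring
              _ ≤ 2 * 2 ^ (LA + 1) * oSib par i := Nat.mul_le_mul_left _ hpos
          · have hjp : par j = some p := by rw [← hr, hp]
            have c4 := near_trans c3 (near_mono (h5 j hj p hjp) le_rfl g1)
            refine near_mono c4 ?_ subset_rfl
            have hs := oSib_lt hj hr
            calc 2 ^ (LA + 1) + 2 ^ (LA + 1) + 2 * 2 ^ (LA + 1) * oSib par j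
                = 2 * 2 ^ (LA + 1) * (oSib par j + 1) := by ring
              _ ≤ 2 * 2 ^ (LA + 1) * oSib par i := Nat.mul_le_mul_left _ hs

end Pool.Agent.H.MP_c8cc4c_co
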