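import Mathlib
import Pool.Agent.H.MP_c8cc4c_co.O.Base

/-! # MP_c8cc4c_co, part O, file 2: from walks in the glued complex to walks in `M` -/

open scoped Classical
open Finset

noncomputable section

namespace Pool.Agent.H.MP_c8cc4c_co

variable {M : PC} {Q : Set M.V} {l1 : ℕ} {Mo : Mouths M}

theorem oAt_ne (v : (glue M Mo).V) : (oAt Mo v).Nonempty := by
  rcases hv : v.1 with x | ⟨i, a, b⟩
  · exact ⟨x, Or.inl hv⟩
  · exact ⟨Mo.gv i 0, Or.inr ⟨i, a, b, 0, hv, rfl⟩⟩

theorem oAt_inl {v : (glue M Mo).V} {x : M.V} (hv : v.1 = Sum.inl x) {y : M.V} :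
    y ∈ oAt Mo v ↔ y = x := by
  constructor
  · rintro (h | ⟨i, a, b, t, h, -⟩)
    · rw [hv] at h
      exact (Sum.inl.inj h).symm
    · rw [hv] at h
      exact absurd h Sum.inl_ne_inr
  · rintro rfl
    exact Or.inl hv

theorem conv_gp {v : (glue M Mo).V} {i : Mo.I} {a b : ℕ} (hv : v.1 = Mo.gp i a b) {x : M.V}
    (hx : x ∈ oAt Mo v) : ∃ t, x = Mo.gv i t := by
  unfold Mouths.gp at hv
  split_ifs at hv with h
  · rcases hx with hx | ⟨i', a', b', t, hx, rfl⟩
    · rw [hv] at hx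
      exact absurd hx.symm Sum.inl_ne_inr
    · rw [hv] at hx
      have h1 := Sum.inr.inj hx
      have h2 : i = i' := congrArg Prod.fst h1
      exact ⟨t, by rw [h2]⟩
  · exact ⟨_, (oAt_inl hv).1 hx⟩

theorem conv_rinc {i : Mo.I} {p : Bool × ℕ × ℕ} {w : M.V ⊕ (Mo.I × ℕ × ℕ)}
    (h : Mo.rinc (Sum.inr (i, p)) w) : ∃ a b, w = Mo.gp i a b := by
  obtain ⟨c, a, b⟩ := p
  cases c
  · rcases h with h | h
    · exact ⟨_, _, h⟩
    · exact ⟨_, _, h⟩
  · rcases h with h | h
    · exact ⟨_, _, h⟩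
    · exact ⟨_, _, h⟩

theorem conv_gv (h : OD M Q l1 Mo) {A : Set M.V} (hA : ∀ i t, Mo.gv i t ∈ A) (i : Mo.I)
    (s t : ℕ) : Near M.graph A (l1 + 1) (Mo.gv i s) (Mo.gv i t) := by
  refine near_mono (o_gv_near i s t) ((h.cut.len i).trans (Nat.le_succ _)) ?_
  rintro z ⟨t, rfl⟩
  exact hA i t

/-- For adjacent vertices `v`, `v'` of the glued complex and `x`, `y` at them there is a short walk from `x` to `y`.
PROOF: let `e` be the edge. If `e.1 = Sum.inl e'`, then `v.1 = Sum.inl x`, `v'.1 = Sum.inl y` and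
`x`, `y` are the two ends of `e'`, so they are adjacent. If `e.1 = Sum.inr (i, _, _, _)` then
`v.1`, `v'.1` are of the form `gp i a b`, which is `Sum.inr (i, a, b)` or `Sum.inl (gv i _)`; in both cases `x` and `y` are
boundary vertices `gv i _` of the same mouth, and `o_gv_near` applies, `n i ≤ l1` (`h.cut.len`). -/
theorem o_step (h : OD M Q l1 Mo) {A : Set M.V} (hA : ∀ i t, Mo.gv i t ∈ A)
    {v v' : (glue M Mo).V} (hadj : (glue M Mo).graph.Adj v v') {x y : M.V} (hx : x ∈ oAt Mo v)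
    (hy : y ∈ oAt Mo v') (hxA : x ∈ A) (hyA : y ∈ A) : Near M.graph A (l1 + 1) x y := by
  obtain ⟨hne, e, he, he'⟩ := hadj
  have h1 : Mo.rinc e.1 v.1 := he
  have h2 : Mo.rinc e.1 v'.1 := he'
  rcases hee : e.1 with e' | ⟨i, p⟩
  · rw [hee] at h1 h2
    obtain ⟨x', hx', hv⟩ := h1
    obtain ⟨y', hy', hv'⟩ := h2
    have ex : x = x' := (oAt_inl hv).1 hx
    have ey : y = y' := (oAt_inl hv').1 hy
    subst ex ey
    have hxy : x ≠ y := by
      rintro rfl
      exact hne (Subtype.ext (hv.trans hv'.symm))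
    exact near_mono (near_adj hxA hyA ⟨hxy, e', hx', hy'⟩) (by omega) subset_rfl
  · rw [hee] at h1 h2
    obtain ⟨a, b, hv⟩ := conv_rinc h1
    obtain ⟨a', b', hv'⟩ := conv_rinc h2
    obtain ⟨s, rfl⟩ := conv_gp hv hx
    obtain ⟨t, rfl⟩ := conv_gp hv' hy
    exact conv_gv h hA i s t

/-- PROOF: induction on `n` with `near_succ`. `n = 0`: `v = v'`; `x = y` or both are `gv i _` (`o_gv_near`). Step:
`v` adjacent to `v1`; take any vertex in `oAt v1` (`oAt_ne`), `o_step` and the induction hypothesis. -/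
theorem o_conv (h : OD M Q l1 Mo) {A : Set M.V} (hA : ∀ i t, Mo.gv i t ∈ A) {n : ℕ}
    {v v' : (glue M Mo).V} (hn : Near (glue M Mo).graph {u | oAt Mo u ⊆ A} n v v') {x y : M.V}
    (hx : x ∈ oAt Mo v) (hy : y ∈ oAt Mo v') : Near M.graph A ((n + 1) * (l1 + 1)) x y := by
  induction n generalizing v x with
  | zero =>
    obtain ⟨rfl, hv⟩ := near_zero.1 hn
    rw [Nat.zero_add, Nat.one_mul]
    rcases hvv : v.1 with z | ⟨i, a, b⟩
    · have ex := (oAt_inl hvv).1 hx
      have ey := (oAt_inl hvv).1 hy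
      rw [ex, ey]
      rw [ex] at hx
      exact near_mono (near_refl (hv hx)) (Nat.zero_le _) subset_rfl
    · have key : ∀ z ∈ oAt Mo v, ∃ t, z = Mo.gv i t := by
        rintro z (hz | ⟨i', a', b', t, hz, rfl⟩)
        · rw [hvv] at hz
          exact absurd hz.symm Sum.inl_ne_inr
        · rw [hvv] at hz
          have h1 := Sum.inr.inj hz
          have h2 : i = i' := congrArg Prod.fst h1
          exact ⟨t, by rw [h2]⟩
      obtain ⟨s, rfl⟩ := key x hx
      obtain ⟨t, rfl⟩ := key y hy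
      exact conv_gv h hA i s t
  | succ n ih =>
    rcases near_succ.1 hn with h1 | ⟨hv, v1, hadj, h1⟩
    · exact near_mono (ih h1 hx) (Nat.mul_le_mul_right _ (by omega)) subset_rfl
    · obtain ⟨z, hz⟩ := oAt_ne v1
      have hv1 := near_left h1
      have h2 := o_step h hA hadj hx hz (hv hx) (hv1 hz)
      have h3 := near_trans h2 (ih h1 hz)
      refine near_mono h3 (le_of_eq ?_) subset_rfl
      ring

theorem o_conv_univ (h : OD M Q l1 Mo) {n : ℕ} {v v' : (glue M Mo).V}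
    (hn : Near (glue M Mo).graph Set.univ n v v') {x y : M.V} (hx : v.1 = Sum.inl x)
    (hy : v'.1 = Sum.inl y) : Near M.graph Set.univ ((n + 1) * (l1 + 1)) x y := by
  refine o_conv h (fun _ _ => Set.mem_univ _) (near_mono hn le_rfl ?_) (Or.inl hx) (Or.inl hy)
  intro u _ z _
  trivial

/-- `o_conv` for `A = Q ∩ Real`: a vertex `u` outside `gO` has `oAt u ⊆ Q ∩ Real` (`o_gv`; a real vertex of the glued
complex is in `Real` by the definition of `okV`). -/
theorem o_conv_W (h : OD M Q l1 Mo) {n : ℕ} {v v' : (glue M Mo).V}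
    (hn : Near (glue M Mo).graph (gO Mo Q)ᶜ n v v') {x y : M.V} (hx : v.1 = Sum.inl x)
    (hy : v'.1 = Sum.inl y) : Near M.graph (Q ∩ Mo.Real) ((n + 1) * (l1 + 1)) x y := by
  refine o_conv h (fun i t => o_gv h i t) (near_mono hn le_rfl ?_) (Or.inl hx) (Or.inl hy)
  intro u hu z hz
  rcases hz with hz | ⟨i, a, b, t, -, rfl⟩
  · refine ⟨?_, ?_⟩
    · by_contra hQ
      exact hu ⟨z, hz, hQ⟩
    · have h1 : Mo.okV u.1 := u.2
      rw [hz] at h1
      exact h1
  · exact o_gv h i t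

end Pool.Agent.H.MP_c8cc4c_co
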