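import Mathlib
import Pool.Agent.H.MP_c8cc4c_co.B.ConnF
import Pool.Agent.H.MP_c8cc4c_co.O.Conv

/-! # MP_c8cc4c_co, part O, file 10: zones -/

open scoped Classical
open Finset

noncomputable section

namespace Pool.Agent.H.MP_c8cc4c_co

variable {M : PC} {Q : Set M.V} {l1 : ℕ} {Mo : Mouths M} {Φ : M.V → (glue M Mo).V}

theorem oPhi_near (hΦ : OPhi M l1 Mo Φ) {k : ℕ} {x y : M.V} (h : Near M.graph Set.univ k x y) :
    Near (glue M Mo).graph Set.univ (2 * k) (Φ x) (Φ y) := by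
  induction k generalizing x with
  | zero =>
    obtain ⟨rfl, -⟩ := near_zero.1 h
    exact near_refl (Set.mem_univ _)
  | succ k ih =>
    rcases near_succ.1 h with h | ⟨-, z, hadj, h⟩
    · exact near_mono (ih h) (by omega) subset_rfl
    · exact near_mono (near_trans (hΦ.adj x z hadj) (ih h)) (by omega) subset_rfl

theorem o_zone_near (hΦ : OPhi M l1 Mo Φ) {Z Z' : Set (glue M Mo).V} {k : ℕ} {x y : M.V}
    (hx : x ∈ oZone Mo l1 Φ Z) (hy : y ∈ oZone Mo l1 Φ Z') (h : Near M.graph Set.univ k x y) :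
    ∃ a ∈ Z, ∃ b ∈ Z', Near (glue M Mo).graph Set.univ 100 (Φ x) a ∧
      Near (glue M Mo).graph Set.univ (2 * k + 200) a b := by
  obtain ⟨⟨a, ha, hxa⟩, -⟩ := hx
  obtain ⟨⟨b, hb, hyb⟩, -⟩ := hy
  exact ⟨a, ha, b, hb, hxa, near_mono (near_trans (near_trans (near_symm hxa)
    (oPhi_near hΦ h)) hyb) (by omega) subset_rfl⟩

/-- PROOF: `x` real: `Φ x` is `x` and `o_conv_univ` applies. `x` interior to `i`, `Near j x (gv i t)`: then
`Near (2 j) (Φ x) (Φ (gv i t))` (`oPhi_near`), `gv i t` is real (`o_gv`), `o_conv_univ` for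
`Near (2 j + k) (Φ (gv i t)) v`. -/
theorem o_sh_near (h : OD M Q l1 Mo) (hΦ : OPhi M l1 Mo Φ) {j k : ℕ} {x y : M.V}
    {v : (glue M Mo).V} (hx : x ∈ oSh Mo j) (hn : Near (glue M Mo).graph Set.univ k (Φ x) v)
    (hv : v.1 = Sum.inl y) : Near M.graph Set.univ (oKO l1 j k) x y := by
  unfold oKO
  rcases hx with hx | ⟨i, t, -, hxt⟩
  · have h1 := o_conv_univ h hn (hΦ.real x hx) hv
    refine near_mono h1 ?_ subset_rfl
    have h2 : (k + 1) * (l1 + 1) ≤ (2 * j + k + 1) * (l1 + 1) :=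
      Nat.mul_le_mul_right _ (by omega)
    omega
  · have h1 := near_trans (near_symm (oPhi_near hΦ hxt)) hn
    have h2 := o_conv_univ h h1 (hΦ.real _ (o_gv h i t).2) hv
    exact near_trans hxt h2

/-- PROOF: `Φ x` is within `100` of `a ∈ Z`, `a` is within `s` of `Φ w` (`connOn_near`); `o_sh_near` with
`j = l1 / 8 + 1`, `k = 100 + s`. -/
theorem o_zone_ball (h : OD M Q l1 Mo) (hΦ : OPhi M l1 Mo Φ) {Z : Set (glue M Mo).V} {s : ℕ}
    {w x : M.V} (hZ : ConnOn (glue M Mo).graph Z) (hs : Z.ncard ≤ s) (hw : w ∈ Mo.Real)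
    (hwZ : Φ w ∈ Z) (hx : x ∈ oZone Mo l1 Φ Z) : Near M.graph Set.univ (oK l1 s) x w := by
  obtain ⟨⟨a, ha, hxa⟩, hsh⟩ := hx
  have h1 : Near (glue M Mo).graph Set.univ s a (Φ w) :=
    near_mono (connOn_near hZ ha hwZ) ((Nat.sub_le _ _).trans hs) (Set.subset_univ _)
  exact o_sh_near h hΦ (j := l1 / 8 + 1) (k := 100 + s) hsh (near_trans hxa h1) (hΦ.real w hw)

/-- a walk can be shortened to the number of vertices (`connOn_near` for the component of `x`, `comp_isComp`) -/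
theorem near_card {V : Type} [Fintype V] {G : SimpleGraph V} {A : Set V} {n : ℕ} {x y : V}
    (h : Near G A n x y) : Near G A A.ncard x y := by
  have hx := near_left h
  have hC := comp_isComp (G := G) hx
  have h1 := connOn_near hC.1 (mem_comp_self hx) (show y ∈ comp G A x from ⟨n, h⟩)
  exact near_mono h1 ((Nat.sub_le _ _).trans (Set.ncard_le_ncard hC.2.1 (Set.toFinite A))) hC.2.1

/-- PROOF: `hΦ.walk` (there is a walk in `Z` from `Φ w` to `Φ w'`), `near_card`, and the zone is contained in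
the ball of radius `oK l1 s` about `w` (`o_zone_ball`, `ball_card`, `nbr_card`). -/
theorem o_zone_walk (h : OD M Q l1 Mo) (hΦ : OPhi M l1 Mo Φ) {D : ℕ} (hD : ∀ v, M.deg v ≤ D)
    {Z : Set (glue M Mo).V} {s : ℕ} {w w' : M.V} (hZ : ConnOn (glue M Mo).graph Z)
    (hs : Z.ncard ≤ s) (hw : w ∈ Mo.Real) (hw' : w' ∈ Mo.Real) (hwZ : Φ w ∈ Z)
    (hwZ' : Φ w' ∈ Z) : Near M.graph (oZone Mo l1 Φ Z) ((D + 1) ^ oK l1 s) w w' := by
  obtain ⟨n, hn⟩ := hZ.2 _ hwZ _ hwZ'
  obtain ⟨m, hm⟩ := hΦ.walk Z w w' n hw hw' hn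
  refine near_mono (near_card hm) ?_ subset_rfl
  have h1 : oZone Mo l1 Φ Z ⊆
      ((univ.filter fun y => Near M.graph Set.univ (oK l1 s) w y : Finset M.V) : Set M.V) := by
    intro x hx
    rw [Finset.mem_coe, Finset.mem_filter]
    exact ⟨mem_univ _, near_symm (o_zone_ball h hΦ hZ hs hw hwZ hx)⟩
  refine (Set.ncard_le_ncard h1 (Set.toFinite _)).trans ?_
  rw [Set.ncard_coe_finset]
  exact ball_card D (fun v => (nbr_card h.sph v).trans (hD v)) Set.univ _ w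

end Pool.Agent.H.MP_c8cc4c_co
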