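import Mathlib
import Pool.Agent.H.MP_c8cc4c_co.O.Zone
import Pool.Agent.H.MP_c8cc4c_co.O.Body
import Pool.Agent.H.MP_c8cc4c_co.O.GrowB

/-! # MP_c8cc4c_co, part O, file 12: the tree -/

open scoped Classical
open Finset

noncomputable section

namespace Pool.Agent.H.MP_c8cc4c_co

variable {M : PC} {Q : Set M.V} {l1 : ℕ} {Mo : Mouths M} {Φ : M.V → (glue M Mo).V}
  {r1 s3 Ld rho1 rhof : ℕ}

/-- The points `w i`. PROOF: `o_point` for `X i` gives a real vertex `v`, `v.1 = Sum.inl x`; `x ∈ Real` (`okV`), so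
`Φ x = v`; `x ∈ Q` since `X i` misses `gO` (`X_O`). -/
theorem o_points (h : OD M Q l1 Mo) (hΦ : OPhi M l1 Mo Φ)
    (T : TEOut (glue M Mo) (gO Mo Q) r1 (l1 ^ 2 + 1) s3 Ld rho1 rhof) :
    ∃ w : ℕ → M.V, ∀ i < T.n, w i ∈ Q ∩ Mo.Real ∧ Φ (w i) ∈ T.X i := by
  have hw : ∀ i, i < T.n → ∃ x, x ∈ Q ∩ Mo.Real ∧ Φ x ∈ T.X i := by
    intro i hi
    obtain ⟨v, hv, x, hx⟩ := o_point h (T.X_conn i hi) (T.X_min i hi)
    have hxr : x ∈ Mo.Real := by
      have h2 : Mo.okV v.1 := v.2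
      rw [hx] at h2
      exact h2
    have hΦx : Φ x = v := Subtype.ext ((hΦ.real x hxr).trans hx.symm)
    refine ⟨x, ⟨?_, hxr⟩, by rw [hΦx]; exact hv⟩
    by_contra hxQ
    exact T.X_O i hi v hv ⟨x, hx, hxQ⟩
  have hne : Nonempty M.V := h.sph.nonempty
  choose! w hw' using hw
  exact ⟨w, hw'⟩

/-- a zone of a vertex with a parent (or without root in `O`) contains no vertex outside `Q`: for `v ∉ Q` `Φ v` is in
`gO` (`o_real`) and within `100 ≤ r1` of `oZ T i`; `oZ_O`. -/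
theorem o_zone_Q (h : OD M Q l1 Mo) (hΦ : OPhi M l1 Mo Φ)
    (T : TEOut (glue M Mo) (gO Mo Q) r1 (l1 ^ 2 + 1) s3 Ld rho1 rhof) (hr1 : 200 ≤ r1) {i : ℕ}
    (hi : i < T.n) (hp : T.par i ≠ none ∨ T.root = false) {v : M.V}
    (hv : v ∈ oZone Mo l1 Φ (oZ T i)) : v ∈ Q := by
  by_contra hvQ
  have hr := o_real h hvQ
  obtain ⟨⟨a, ha, hna⟩, -⟩ := hv
  refine oZ_O T hi hp ha (Φ v) ⟨v, hΦ.real v hr, hvQ⟩ ?_
  exact near_mono (near_symm hna) (by omega) subset_rfl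

/-- The relation between zones with a common vertex (`o_zone_near` with `k = 0`, `oZ_rel`, `j < i`; `par j = some i` is
excluded by `par_lt`). -/
theorem o_zone_rel (h : OD M Q l1 Mo) (hΦ : OPhi M l1 Mo Φ)
    (T : TEOut (glue M Mo) (gO Mo Q) r1 (l1 ^ 2 + 1) s3 Ld rho1 rhof) (hr1 : 200 ≤ r1) {i j : ℕ}
    (hi : i < T.n) (hj : j < i) (hv : ∃ v ∈ oZone Mo l1 Φ (oZ T i), v ∈ oZone Mo l1 Φ (oZ T j)) :
    T.par i = some j ∨ T.par i = T.par j := by
  obtain ⟨v, hvi, hvj⟩ := hv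
  obtain ⟨a, ha, b, hb, -, hab⟩ := o_zone_near hΦ (k := 0) hvi hvj (near_refl (Set.mem_univ v))
  rcases oZ_rel T hi (hj.trans hi) (by omega) ha hb (near_mono hab (by omega) subset_rfl) with
    h1 | h1 | ⟨p, h1, h2⟩ | ⟨h1, h2, -, -⟩
  · exact Or.inl h1
  · have := T.par_lt j (hj.trans hi) i h1
    omega
  · exact Or.inr (h1.trans h2.symm)
  · exact Or.inr (h1.trans h2.symm)

/-- The tree. PROOF: `w` from `o_points`; `o_grow` with `A i = oZone (oZ T i)`, `LA = oLA D l1 s3 Ld`,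
`O0 = S0 = oOut M Q` (`ogood_out`) if `T.root`, `O0 = ∅`, `S0 = {cv (w 0)}` (`ogood_single`) otherwise.
`hwA`: `Φ (w i) ∈ X i ⊆ oZ T i`. `walk`: `o_zone_walk` with `Z = oZ T i` (`oZ_conn`, `oZ_card`). `walk0`, root: `D_O` gives
`y ∈ Dr i`, `y ∈ gO`, `y.1 = Sum.inl x`, `x ∉ Q`; `Φ x = y`; `cv x ∈ oOut`; no root: `i = 0` (`par_root`), `y = w 0`.
`rel`: `o_zone_rel`. `hS0A`: root: `cv v ∈ oOut` means `v ∉ Q`, against `o_zone_Q`; no root: `v = w 0` is in the zones `i`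
and `0`, so (`o_zone_rel`; `0 < i` as `par 0 = none`) `par i = some 0`, `p = 0`. Conclusions: `zone`: root: `cv v ∈ oOut`
means `v ∉ Q`; no root: `v = w 0`, `i = 0`. `par`: `oSib_le`. -/
theorem o_tree (h : OD M Q l1 Mo) (hΦ : OPhi M l1 Mo Φ) {D : ℕ} (hD : ∀ v, M.deg v ≤ D)
    (T : TEOut (glue M Mo) (gO Mo Q) r1 (l1 ^ 2 + 1) s3 Ld rho1 rhof) (hr1 : 200 ≤ r1) :
    ∃ (w : ℕ → M.V) (O0 S : Set M.Cell), OTree l1 D Φ T w O0 S := by
  obtain ⟨w, hw⟩ := o_points h hΦ T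
  have hwX : ∀ i < T.n, Φ (w i) ∈ oZ T i := fun i hi => Or.inl (hw i hi).2
  have hwA : ∀ i < T.n, w i ∈ oZone Mo l1 Φ (oZ T i) := fun i hi =>
    ⟨⟨Φ (w i), hwX i hi, near_mono (near_refl (Set.mem_univ _)) (by omega) subset_rfl⟩,
      Or.inl (hw i hi).1.2⟩
  have hwalk : ∀ i < T.n, ∀ j, T.par i = some j →
      Near M.graph (oZone Mo l1 Φ (oZ T i)) (oLA D l1 s3 Ld) (w i) (w j) := by
    intro i hi j hij
    have hj : j < T.n := (T.par_lt i hi j hij).trans hi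
    exact o_zone_walk h hΦ hD (oZ_conn T hi) (oZ_card T hi) (hw i hi).1.2 (hw j hj).1.2 (hwX i hi)
      (Or.inr (Or.inr ⟨j, hij, (hw j hj).2⟩))
  have hrel : ∀ i < T.n, ∀ j < i, (∃ v ∈ oZone Mo l1 Φ (oZ T i), v ∈ oZone Mo l1 Φ (oZ T j)) →
      T.par i = some j ∨ T.par i = T.par j := fun i hi j hj hv => o_zone_rel h hΦ T hr1 hi hj hv
  have hfin : ∀ S : Set M.Cell, (∀ i < T.n, ∀ p, T.par i = some p →
      Near M.sd S (2 * 2 ^ (oLA D l1 s3 Ld + 1) * oSib T.par i) (M.cv (w i)) (M.cv (w p))) →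
      ∀ i < T.n, ∀ p, T.par i = some p →
        Near M.sd S (2 * oL D l1 s3 Ld * s3) (M.cv (w i)) (M.cv (w p)) := by
    intro S hS i hi p hp
    refine near_mono (hS i hi p hp) ?_ subset_rfl
    exact Nat.mul_le_mul_left _ (oSib_le T hi hp)
  cases hroot : T.root with
  | true =>
    obtain ⟨S, hS1, hS2, hS3, hS4, hS5⟩ := o_grow h.sph (ogood_out h.sph h.connO) T.n T.par w
      (fun i => oZone Mo l1 Φ (oZ T i)) (oLA D l1 s3 Ld) T.par_lt hwA hwalk (by
        intro i hi hn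
        obtain ⟨y, hy, x, hx, hxQ⟩ := T.D_O hroot i hi hn
        have hxr := o_real h hxQ
        have hΦx : Φ x = y := Subtype.ext ((hΦ.real x hxr).trans hx.symm)
        refine ⟨x, ?_, ?_⟩
        · rintro z (hz | hz)
          · have h1 : z = x := Sum.inl_injective hz
            rw [h1]
            exact hxQ
          · exact absurd hz (by simp [PC.cv, PC.below])
        · exact o_zone_walk h hΦ hD (oZ_conn T hi) (oZ_card T hi) (hw i hi).1.2 hxr (hwX i hi)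
            (by rw [hΦx]; exact Or.inr (Or.inl hy))) hrel (by
        intro i hi p hp v hv hvS
        have h1 : v ∉ Q := hvS v (Or.inl rfl)
        exact absurd (o_zone_Q h hΦ T hr1 hi (Or.inl (by rw [hp]; simp)) hv) h1)
    refine ⟨w, oOut M Q, S, ⟨Or.inr rfl, hS2, fun i hi => (hw i hi).1, fun i hi => (hw i hi).2,
      hS3, ?_, hfin S hS5⟩⟩
    intro v hv
    rcases hS4 v hv with h1 | h1
    · exact Or.inl (h1 v (Or.inl rfl))
    · exact Or.inr h1
  | false =>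
    obtain ⟨hn0, hpar⟩ := T.par_root hroot
    have hp0 : T.par 0 = none := (hpar 0 hn0).2 rfl
    obtain ⟨S, hS1, hS2, hS3, hS4, hS5⟩ := o_grow h.sph (ogood_single M Q (w 0)) T.n T.par w
      (fun i => oZone Mo l1 Φ (oZ T i)) (oLA D l1 s3 Ld) T.par_lt hwA hwalk (by
        intro i hi hn
        have h0 : i = 0 := (hpar i hi).1 hn
        subst h0
        exact ⟨w 0, rfl, near_mono (near_refl (hwA 0 hi)) (Nat.zero_le _) subset_rfl⟩) hrel (by
        intro i hi p hp v hv hvS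
        have h1 : v = w 0 := Sum.inl_injective hvS
        have hi0 : 0 < i := by
          rcases Nat.eq_zero_or_pos i with h2 | h2
          · rw [h2, hp0] at hp
            exact absurd hp (by simp)
          · exact h2
        rcases hrel i hi 0 hi0 ⟨v, hv, by rw [h1]; exact hwA 0 hn0⟩ with h2 | h2
        · rw [h2] at hp
          rw [h1, Option.some.inj hp]
        · rw [h2, hp0] at hp
          exact absurd hp (by simp))
    refine ⟨w, ∅, S, ⟨Or.inl rfl, hS2, fun i hi => (hw i hi).1, fun i hi => (hw i hi).2,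
      hS3, ?_, hfin S hS5⟩⟩
    intro v hv
    rcases hS4 v hv with h1 | h1
    · have h2 : v = w 0 := Sum.inl_injective h1
      refine Or.inr ⟨0, hn0, by rw [h2]; exact hwA 0 hn0, ?_⟩
      rw [h2]
      exact near_mono (near_refl (hS3 0 hn0)) (Nat.zero_le _) subset_rfl
    · exact Or.inr h1

end Pool.Agent.H.MP_c8cc4c_co
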