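import Mathlib
import Pool.Agent.H.MP_c8cc4c_co.B.Star
import Pool.Agent.H.MP_c8cc4c_co.B.Conn
import Pool.Agent.H.MP_c8cc4c_co.F.SdA
import Pool.Agent.H.MP_c8cc4c_co.O.Defs

/-! # MP_c8cc4c_co, part O, file 7: the complement of a good set is connected -/

open scoped Classical
open Finset

noncomputable section

namespace Pool.Agent.H.MP_c8cc4c_co

variable {M : PC} {Q : Set M.V} {O0 S : Set M.Cell}

/-- the cells with a vertex in `Q` form a connected set: such a cell is `cv x` or adjacent to `cv x`, `x ∈ Q`; adjacent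
vertices `x, y ∈ Q` are joined by `ce e`. -/
theorem oOut_compl_conn (hM : M.IsSphere) (hQ : ConnOn M.graph Q) :
    ConnOn M.sd (oOut M Q)ᶜ := by
  have hmem : ∀ (c : M.Cell) (x : M.V), x ∈ Q → (M.cv x = c ∨ M.below (M.cv x) c) →
      c ∈ (oOut M Q)ᶜ := by
    intro c x hx h hc
    exact hc x h hx
  have hv : ∀ x ∈ Q, M.cv x ∈ (oOut M Q)ᶜ := fun x hx => hmem _ x hx (Or.inl rfl)
  obtain ⟨x0, hx0⟩ := hQ.1
  refine connOn_of_center (hv x0 hx0) ?_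
  intro c hc
  have hc2 : ∃ x ∈ Q, (M.cv x = c ∨ M.below (M.cv x) c) := by
    by_contra hcon
    apply hc
    intro x hx hxQ
    exact hcon ⟨x, hxQ, hx⟩
  obtain ⟨x, hxQ, hx⟩ := hc2
  have h1 : ∃ k, Near M.sd (oOut M Q)ᶜ k (M.cv x0) (M.cv x) := by
    obtain ⟨n, hn⟩ := hQ.2 x0 hx0 x hxQ
    refine near_induct (fun v => ∃ k, Near M.sd (oOut M Q)ᶜ k (M.cv x0) (M.cv v)) ?_ hn
      ⟨0, near_refl (hv x0 hx0)⟩
    rintro u v hu hv' ⟨-, e, hue, hve⟩ ⟨k, hk⟩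
    have hce : M.ce e ∈ (oOut M Q)ᶜ := hmem _ u hu (Or.inr hue)
    exact ⟨k + 1 + 1, near_trans (near_trans hk (near_adj (hv u hu) hce (sd_adj_ve.2 hue)))
      (near_adj hce (hv v hv') (sd_adj_ve.2 hve).symm)⟩
  obtain ⟨k, hk⟩ := h1
  rcases hx with hx | hx
  · rw [← hx]
    exact ⟨k, hk⟩
  · exact ⟨k + 1, near_trans hk (near_adj (hv x hxQ) hc ((sd_adj _ _).2 (Or.inl hx)))⟩

/-- PROOF: `hcc` for `T = sdPC M` (`hsd`; there is a face because `Q`, `Qᶜ` are nonempty: `exists_at`) with `O = O0`.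
`O0ᶜ` is connected: `oOut_compl_conn`, or `O0 = ∅` and the subdivision is connected (`sd_conn`). There is a cell
not in `S`: a face at a vertex of `Q` (`face`). `acyc` is the last hypothesis. -/
theorem ogood_compl (hM : M.IsSphere) (hsd : SdStmt) (hcc : ComplConnStmt) (hQ : ConnOn M.graph Q)
    (hQc : ConnOn M.graph Qᶜ) (hS : OGood M Q O0 S) (hO0 : O0 = ∅ ∨ O0 = oOut M Q) :
    ConnOn M.sd Sᶜ := by
  obtain ⟨x, hx⟩ := hQ.1
  obtain ⟨y, hy⟩ := hQc.1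
  have hxy : x ≠ y := by
    rintro rfl
    exact hy hx
  obtain ⟨f, hf⟩ := exists_at hM hxy
  obtain ⟨h1, h2, h3⟩ := hsd M hM ⟨f⟩
  refine hcc M.sdPC h1 h2 h3 S O0 hS.sub ?_ ⟨M.cf f, fun h => hS.face f h x hf hx⟩ hS.acyc
  rcases hO0 with h | h
  · rw [h]
    change ConnOn M.sd (∅ : Set M.Cell)ᶜ
    rw [Set.compl_empty]
    exact ⟨⟨M.cf f, trivial⟩, fun a _ b _ => sd_conn hM a b⟩
  · rw [h]
    exact oOut_compl_conn hM hQ

end Pool.Agent.H.MP_c8cc4c_co
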