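import Mathlib
import Pool.Agent.H.MP_c8cc4c_co.O.Tree
import Pool.Agent.H.MP_c8cc4c_co.O.TreeB
import Pool.Agent.H.MP_c8cc4c_co.O.ChildB
import Pool.Agent.H.MP_c8cc4c_co.O.Glued

/-! # MP_c8cc4c_co, part O, file 13: the theorem of part O -/

open scoped Classical
open Finset

noncomputable section

namespace Pool.Agent.H.MP_c8cc4c_co

variable {M : PC} {Q : Set M.V} {l1 : ℕ} {Mo : Mouths M} {Φ : M.V → (glue M Mo).V}
  {r1 s3 Ld rho1 rhof : ℕ}

/-- a shallow or real vertex whose image is close to `gO` is close to the complement of `Q` -/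
theorem o_near_out (h : OD M Q l1 Mo) (hΦ : OPhi M l1 Mo Φ) {j k : ℕ} {x : M.V}
    (hx : x ∈ oSh Mo j) (hn : ∃ v ∈ gO Mo Q, Near (glue M Mo).graph Set.univ k (Φ x) v) :
    ∃ y, y ∉ Q ∧ Near M.graph Set.univ (oKO l1 j k) x y := by
  obtain ⟨v, ⟨y, hy, hyQ⟩, hn⟩ := hn
  exact ⟨y, hyQ, o_sh_near h hΦ hx hn hy⟩

/-- Quasi-isometry. PROOF: `x, y ∈ Q`, so `Tr.zone` gives `i`, `j` with `x`, `y` in the zones and close to `cv (w i)`,
`cv (w j)` in `S`. `i = j`: done. Otherwise `o_zone_near` with `k = 3 r`, `oZ_rel`: `par i = some j`, `par j = some i`, or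
a common parent: `Tr.par`. Or both are `none` and `a ∈ Dr i`: then `T.root = true` (otherwise `i = 0 = j`), and `F6` gives
`Near rhof a y'`, `y' ∈ gO`: `Φ x` is within `100 + rhof` of `gO`, so `x` is within `rf` of `Qᶜ` by `o_near_out` with
`j = l1 / 8 + 1`, contradiction. -/
theorem o_qi (h : OD M Q l1 Mo) (hΦ : OPhi M l1 Mo Φ) {D r rf : ℕ}
    (T : TEOut (glue M Mo) (gO Mo Q) r1 (l1 ^ 2 + 1) s3 Ld rho1 rhof) (hr1 : 6 * r + 200 ≤ r1)
    {w : ℕ → M.V} {O0 S : Set M.Cell} (Tr : OTree l1 D Φ T w O0 S)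
    (hrf : oKO l1 (l1 / 8 + 1) (100 + rhof) ≤ rf) {x y : M.V} (hx : x ∈ Q) (hy : y ∈ Q)
    (hxS : M.cv x ∈ S) (hyS : M.cv y ∈ S)
    (hxf : ∀ z, z ∉ Q → ¬ Near M.graph Set.univ rf x z)
    (hxy : Near M.graph Set.univ (3 * r) x y) :
    Near M.sd S (2 * oL D l1 s3 Ld + 4 * oL D l1 s3 Ld * s3) (M.cv x) (M.cv y) := by
  rcases Tr.zone x hxS with h1 | ⟨i, hi, hxz, hxn⟩
  · exact absurd hx h1
  rcases Tr.zone y hyS with h1 | ⟨j, hj, hyz, hyn⟩
  · exact absurd hy h1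
  by_cases hij : i = j
  · subst hij
    exact near_mono (near_trans hxn (near_symm hyn)) (by omega) subset_rfl
  obtain ⟨a, ha, b, hb, hxa, hab⟩ := o_zone_near hΦ hxz hyz hxy
  rcases oZ_rel T hi hj hij ha hb (near_mono hab (by omega) subset_rfl) with
    h1 | h1 | ⟨p, h1, h2⟩ | ⟨h1, h2, h3, -⟩
  · refine near_mono (near_trans (near_trans hxn (Tr.par i hi j h1)) (near_symm hyn)) ?_ subset_rfl
    nlinarith [Nat.zero_le (oL D l1 s3 Ld * s3)]
  · refine near_mono (near_trans (near_trans hxn (near_symm (Tr.par j hj i h1)))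
      (near_symm hyn)) ?_ subset_rfl
    nlinarith [Nat.zero_le (oL D l1 s3 Ld * s3)]
  · refine near_mono (near_trans (near_trans (near_trans hxn (Tr.par i hi p h1))
      (near_symm (Tr.par j hj p h2))) (near_symm hyn)) ?_ subset_rfl
    nlinarith [Nat.zero_le (oL D l1 s3 Ld * s3)]
  · exfalso
    have hroot : T.root = true := by
      cases hr : T.root with
      | true => rfl
      | false =>
        obtain ⟨-, hpar⟩ := T.par_root hr
        exact absurd (((hpar i hi).1 h1).trans ((hpar j hj).1 h2).symm) hij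
    obtain ⟨v, hv, hnv⟩ := T.F6 hroot i hi h1 a h3
    obtain ⟨z, hz, hnz⟩ := o_near_out h hΦ (j := l1 / 8 + 1) (k := 100 + rhof) (x := x) hxz.2
      ⟨v, hv, near_trans hxa hnv⟩
    exact hxf z hz (near_mono hnz hrf subset_rfl)

/-- Every vertex of `oV0` is close to the complement of `Q` or, inside `oV0`, to some `w i`. PROOF: `o_to_real`: `x'` real in
`Q`, `Near hh x x'` in `oV0`. `F5` for `Φ x'`. Second case: `o_near_out` for `x'` (`j = 0`), then `near_trans`. First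
case: `Near rho1 (Φ x') a`, `a ∈ X i`, so `Near (rho1 + s3) (Φ x') (Φ (w i))` (`connOn_near`, `X_max`). Let `k = rho1 + s3`.
If some `v ∈ gO` is within `k` of `Φ x'` use `o_near_out` again. Otherwise `near_sub` gives a walk outside `gO`, and
`o_conv_W`; `Q ∩ Real ⊆ oV0`. -/
theorem o_reach (h : OD M Q l1 Mo) (hΦ : OPhi M l1 Mo Φ) {D hh rf : ℕ}
    (T : TEOut (glue M Mo) (gO Mo Q) r1 (l1 ^ 2 + 1) s3 Ld rho1 rhof)
    {w : ℕ → M.V} {O0 S : Set M.Cell} (Tr : OTree l1 D Φ T w O0 S)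
    (hrf : hh + oKO l1 0 (rho1 + s3 + rhof) ≤ rf) {x : M.V} (hx : x ∈ oV0 Mo Q hh) :
    (∃ y, y ∉ Q ∧ Near M.graph Set.univ rf x y) ∨
      ∃ s ∈ oV0 Mo Q hh, M.cv s ∈ S ∧
        Near M.graph (oV0 Mo Q hh) (hh + (rho1 + s3 + 1) * (l1 + 1)) x s := by
  obtain ⟨x', hx', hxx'⟩ := o_to_real h hx
  have hsh : x' ∈ oSh Mo 0 := Or.inl hx'.2
  have hout : ∀ k, k ≤ rho1 + s3 + rhof →
      (∃ v ∈ gO Mo Q, Near (glue M Mo).graph Set.univ k (Φ x') v) →
      ∃ y, y ∉ Q ∧ Near M.graph Set.univ rf x y := by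
    intro k hk hv
    obtain ⟨y, hy, hny⟩ := o_near_out h hΦ hsh hv
    refine ⟨y, hy, near_mono (near_trans (near_mono hxx' le_rfl (Set.subset_univ _)) hny)
      (le_trans ?_ hrf) subset_rfl⟩
    refine Nat.add_le_add_left ?_ hh
    unfold oKO
    exact Nat.add_le_add_left (Nat.mul_le_mul_right _ (by omega)) _
  rcases T.F5 (Φ x') with ⟨i, hi, a, ha, hna⟩ | hfar
  · have h1 := connOn_near (T.X_conn i hi) ha (Tr.wX i hi)
    have h2 := T.X_max i hi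
    have h3 : Near (glue M Mo).graph Set.univ (rho1 + s3) (Φ x') (Φ (w i)) :=
      near_trans hna (near_mono h1 (by omega) (Set.subset_univ _))
    by_cases hO : ∃ v ∈ gO Mo Q, Near (glue M Mo).graph Set.univ (rho1 + s3) (Φ x') v
    · exact Or.inl (hout (rho1 + s3) (by omega) hO)
    · push Not at hO
      right
      have h4 : Near (glue M Mo).graph (gO Mo Q)ᶜ (rho1 + s3) (Φ x') (Φ (w i)) := by
        refine near_mono (near_sub (B := (gO Mo Q)ᶜ) h3 ?_) le_rfl Set.inter_subset_right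
        intro z hz hzO
        exact hO z hzO hz
      have h5 := o_conv_W h h4 (hΦ.real x' hx'.2) (hΦ.real (w i) (Tr.wW i hi).2)
      have hsub : Q ∩ Mo.Real ⊆ oV0 Mo Q hh := fun z hz => ⟨hz.1, Or.inl hz.2⟩
      exact ⟨w i, hsub (Tr.wW i hi), Tr.wS i hi,
        near_trans hxx' (near_mono h5 le_rfl hsub)⟩
  · exact Or.inl (hout rhof (by omega) hfar)

/-- One step, given the output of part T. PROOF: `V0 = oV0 Mo Q hh`. Children: `o_child_compl`, `o_child_cut`, `o_child_far`.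
If every vertex of the glued complex is within `rhof` of `gO`: `x ∈ oV0` is in `oSh hh`: `o_near_out`. Otherwise `o_tree`,
`ogood_compl`, `o_reach`, `o_qi`; the last property: `cv y ∈ S` gives `y ∉ Q` (then `y` is real) or `y` in a zone: in
both cases `y ∈ oSh (l1 / 8 + 1)`, and `o_deep_far`. -/
theorem o_out (hsd : SdStmt) (hcc : ComplConnStmt) (h : OD M Q l1 Mo) (hΦ : OPhi M l1 Mo Φ)
    {D r hh rf : ℕ} (hD : ∀ v, M.deg v ≤ D) (hr1 : 6 * r + 200 ≤ r1)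
    (hhh : r + (2 * r + 4) + (l1 / 8 + 1) ≤ hh)
    (hrf : oKO l1 (l1 / 8 + 1) (100 + rhof) ≤ rf) (hrf' : hh + oKO l1 0 (rho1 + s3 + rhof) ≤ rf)
    (hrf'' : oKO l1 hh rhof ≤ rf)
    (hT : (∀ v, ∃ y ∈ gO Mo Q, Near (glue M Mo).graph Set.univ rhof v y) ∨
      Nonempty (TEOut (glue M Mo) (gO Mo Q) r1 (l1 ^ 2 + 1) s3 Ld rho1 rhof)) :
    OSTOut M Q r (D * (l1 * (D + 1) ^ hh)) rf (hh + (rho1 + s3 + 1) * (l1 + 1))
      (2 * oL D l1 s3 Ld + 4 * oL D l1 s3 Ld * s3) := by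
  refine ⟨oV0 Mo Q hh, Set.inter_subset_left, ?_, ?_⟩
  · intro C hC
    refine ⟨o_child_compl h hC, o_child_cut h hD hC, ?_⟩
    intro x hx y hy
    exact o_child_far h (by omega) hC hx hy
  · rcases hT with hT | ⟨⟨T⟩⟩
    · left
      intro x hx
      obtain ⟨y, hy, hny⟩ := o_near_out h hΦ hx.2 (hT (Φ x))
      exact ⟨y, hy, near_mono hny hrf'' subset_rfl⟩
    · right
      obtain ⟨w, O0, S, Tr⟩ := o_tree h hΦ hD T (by omega)
      refine ⟨S, Tr.good.conn, ogood_compl h.sph hsd hcc h.connQ h.connO Tr.good Tr.base,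
        Tr.good.down, Tr.good.face, ?_, ?_, ?_⟩
      · intro x hx
        exact o_reach h hΦ T Tr hrf' hx
      · intro x hx y hy hxS hyS hxf _ hxy
        exact o_qi h hΦ T hr1 Tr hrf hx hy hxS hyS hxf hxy
      · intro x hx hx' y hyS
        have hsh : y ∈ oSh Mo (l1 / 8 + 1) := by
          rcases Tr.zone y hyS with h1 | ⟨i, hi, hz, -⟩
          · exact Or.inl (o_real h h1)
          · exact hz.2
        exact o_deep_far h (by omega) hx hx' hsh

/-- Part O. PROOF: `D2 = 3 D + 4`, `r1 = 6 r + 200`, `te D2 r1 rhoP` gives `lmax`, `rho1`; `l1 = 3 lmax`,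
`smin = l1 ^ 2 + 1` gives `s3`, `Ld`, `rhof`; `hh = r + (2 r + 4) + (l1 / 8 + 1)`, `rf` = sum of the three bounds;
`o_out`. -/
theorem ost (te : TEStmt) (sc : StaticCutStmt) (llc : LLCStmt) (gs : GlueSphereStmt)
    (gq : GlueQuadStmt) (gd : GlueDegStmt) (rw' : RealWalksStmt) (cc : ComplConnStmt)
    (sd : SdStmt) : OSTStmt := by
  intro D r
  obtain ⟨lmax, rho1, h1⟩ := te (3 * D + 4) (6 * r + 200) rhoP
  obtain ⟨s3, Ld, rhof, h2⟩ := h1 ((3 * lmax) ^ 2 + 1)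
  set l1 := 3 * lmax with hl1
  set hh := r + (2 * r + 4) + (l1 / 8 + 1) with hhh
  refine ⟨D * (l1 * (D + 1) ^ hh),
    oKO l1 (l1 / 8 + 1) (100 + rhof) + (hh + oKO l1 0 (rho1 + s3 + rhof)) + oKO l1 hh rhof,
    hh + (rho1 + s3 + 1) * (l1 + 1), 2 * oL D l1 s3 Ld + 4 * oL D l1 s3 Ld * s3, ?_⟩
  intro M hM hMQ hMS hD Q hQ hQc
  obtain ⟨Mo, hcut⟩ := sc M hM hMQ hMS Q hQ hQc l1
  have h : OD M Q l1 Mo := ⟨hM, hMQ, hMS, hQ, hQc, hcut⟩
  obtain ⟨Φ, hΦ1, hΦ2, hΦ3, hΦ4⟩ := rw' M hM hMQ hMS Q hQ hQc l1 Mo hcut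
  have hΦ : OPhi M l1 Mo Φ := ⟨hΦ1, hΦ2, hΦ3, hΦ4⟩
  refine o_out sd cc h hΦ (r1 := 6 * r + 200) (rhof := rhof) (rho1 := rho1) (s3 := s3) (Ld := Ld)
    hD le_rfl le_rfl ?_ ?_ ?_ ?_
  · exact (Nat.le_add_right _ _).trans (Nat.le_add_right _ _)
  · exact (Nat.le_add_left _ _).trans (Nat.le_add_right _ _)
  · exact Nat.le_add_left _ _
  · refine h2 (glue M Mo) (gO Mo Q) (gs M hM Mo) (gq M hM Mo fun f _ => hMQ f) (o_deg h gd hD)
      (o_gO_conn h) ?_
    exact llc M hM hMQ hMS Q hQ hQc l1 Mo hcut lmax le_rfl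

end Pool.Agent.H.MP_c8cc4c_co
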